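import Pool.Agent.Lib.SymCirc.Spec

/-!
# M3: transfer along the gates of a symmetric circuit
-/

namespace Pool.Agent.Lib.SymCirc

open Equiv

namespace TransferAux

variable {P A V : Type}

theorem val_input (C : Circuit P A V) (a : P → A) {g : C.G} {p : P} {f : A → V}
    (h : C.gate g = .input p f) : C.val a g = f (a p) := by
  rw [Circuit.val]
  split
  · next p' f' h' =>
    rw [h] at h'
    injection h' with h1 h2
    subst h1 h2
    rfl
  · next op ch h' =>
    rw [h] at h'
    injection h'

theorem val_inner (C : Circuit P A V) (a : P → A) {g : C.G} {op : Multiset V → V}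
    {ch : Multiset C.G} (h : C.gate g = .inner op ch) : C.val a g = op (ch.map (C.val a)) := by
  rw [Circuit.val]
  split
  · next p' f' h' =>
    rw [h] at h'
    injection h'
  · next op' ch' h' =>
    rw [h] at h'
    injection h' with h1 h2
    subst h1 h2
    rw [Multiset.attach_map_val' ch (C.val a)]

/-- automorphisms and values -/
theorem val_aut (C : Circuit P A V) {σ : Perm P} {τ : Perm C.G} (hτ : C.IsAut σ τ) (a : P → A) :
    ∀ (n : ℕ) (g : C.G), C.rk g = n → C.val (a ∘ σ.symm) (τ g) = C.val a g := by
  intro n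
  induction n using Nat.strong_induction_on with
  | _ n ih =>
    intro g hg
    have h1 := hτ.2 g
    cases hgate : C.gate g with
    | input p f =>
      rw [hgate] at h1
      rw [val_input C _ h1, val_input C _ hgate]
      simp
    | inner op ch =>
      rw [hgate] at h1
      rw [val_inner C _ h1, val_inner C _ hgate, Multiset.map_map]
      congr 1
      refine Multiset.map_congr rfl fun h hh => ?_
      have h2 := C.acyclic g op ch hgate h hh
      exact ih (C.rk h) (hg ▸ h2) h rfl

open Classical in
theorem sum_count {ι H : Type} (L : Finset ι) (ch : Multiset H) (F : ι → H → V) (v : V) :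
    ∑ κ ∈ L, (ch.map (F κ)).count v =
      (ch.map fun h => (L.filter fun κ => F κ h = v).card).sum := by
  induction ch using Multiset.induction with
  | empty => simp
  | cons h ch ih =>
    simp only [Multiset.map_cons, Multiset.count_cons, Multiset.sum_cons]
    rw [Finset.sum_add_distrib, ih, add_comm]
    congr 1
    rw [Finset.card_filter]
    refine Finset.sum_congr rfl fun κ _ => ?_
    by_cases h1 : F κ h = v
    · rw [if_pos h1, if_pos h1.symm]
    · rw [if_neg h1, if_neg (fun h2 => h1 h2.symm)]

section group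

variable {β T : Type} [Group T] {S Δ : Finset β}

theorem loc_one : Loc S Δ (1 : β → T) := ⟨fun _ => one_mem _, fun _ _ => rfl⟩

theorem loc_mul {κ κ' : β → T} (h : Loc S Δ κ) (h' : Loc S Δ κ') : Loc S Δ (κ * κ') :=
  ⟨fun i => mul_mem (h.1 i) (h'.1 i), fun i hi => by
    rw [Pi.mul_apply, h.2 i hi, h'.2 i hi, one_mul]⟩

theorem loc_inv {κ : β → T} (h : Loc S Δ κ) : Loc S Δ κ⁻¹ :=
  ⟨fun i => inv_mem (h.1 i), fun i hi => by rw [Pi.inv_apply, h.2 i hi, inv_one]⟩

theorem loc_conj {κ : β → T} (h : Loc S Δ κ) (k : β → T) : Loc S Δ (k * κ * k⁻¹) :=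
  ⟨fun i => (inferInstance : (commutator T).Normal).conj_mem _ (h.1 i) (k i), fun i hi => by
    simp [h.2 i hi]⟩

end group

theorem comp_symm {β T : Type} [Group T] (φ : (β → T) →* Perm P) (a : P → A) (k κ : β → T) :
    (a ∘ (φ k).symm) ∘ (φ κ).symm = a ∘ (φ (κ * k)).symm := by
  rw [map_mul]
  rfl

end TransferAux

open TransferAux

open Classical in
/-- M3 -/
theorem stTransfer : StGate → StTransfer' := by
  intro hGate β T P A V W _ _ _ _ φ S q s bl a0 a Wd C h2q hbl hinv hne hanti hmove hloc hsym horb
  -- the supports of the gates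
  have hsupp : ∀ g : C.G, ∃ Δ : Finset β, Δ ⊆ S ∧ Δ.card ≤ s ∧
      (∀ p f, C.gate g = .input p f → Δ = bl p ∩ S) ∧
      (∀ op ch, C.gate g = .inner op ch → ∀ κ : β → T, Loc S Δ κ → ∀ A' : P → A,
        ch.map (C.val (A' ∘ (φ κ).symm)) = ch.map (C.val A')) := by
    intro g
    cases hg : C.gate g with
    | input p f =>
      refine ⟨bl p ∩ S, Finset.inter_subset_right, hbl p, ?_, ?_⟩
      · intro p' f' h
        injection h with h1 h2
        rw [h1]
      · intro op ch h
        injection h
    | inner op ch =>
      obtain ⟨Δ, h1, h2, h3⟩ := hGate β T P A V φ S q C g op ch hsym hg (horb g).1 (horb g).2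
      refine ⟨Δ, h1, by omega, ?_, ?_⟩
      · intro p f h
        injection h
      · intro op' ch' h
        injection h with h4 h5
        subst h5
        exact h3
  choose Δ hΔS hΔs hΔi hΔg using hsupp
  have key : ∀ (n : ℕ) (g : C.G), C.rk g = n → ∀ k : β → T, (∀ i, i ∉ S → k i = 1) →
      ∀ w ∈ Wd (Δ g), C.val (a0 ∘ (φ k).symm) g = C.val (a w ∘ (φ k).symm) g := by
    intro n
    induction n using Nat.strong_induction_on with
    | _ n ih =>
      intro g hrk k hk w hw
      cases hg : C.gate g with
      | input p f =>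
        rw [val_input C _ hg, val_input C _ hg]
        congr 1
        have h1 : bl ((φ k).symm p) = bl p := by
          have := hinv k ((φ k).symm p)
          rw [Equiv.apply_symm_apply] at this
          exact this.symm
        have h2 := hΔi g p f hg
        rw [h2, ← h1] at hw
        exact hloc _ w hw
      | inner op ch =>
        rw [val_inner C _ hg, val_inner C _ hg]
        congr 1
        have : Fintype (β → T) := Fintype.ofFinite _
        set L : Finset (β → T) := Finset.univ.filter (Loc S (Δ g)) with hL
        have hmemL : ∀ κ, κ ∈ L ↔ Loc S (Δ g) κ := fun κ => by rw [hL, Finset.mem_filter]; simp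
        have hLpos : 0 < L.card := Finset.card_pos.2 ⟨1, (hmemL 1).2 loc_one⟩
        have havg : ∀ (A' : P → A) (v : V), L.card * (ch.map (C.val A')).count v =
            (ch.map fun h => (L.filter fun κ => C.val (A' ∘ (φ κ).symm) h = v).card).sum := by
          intro A' v
          rw [← sum_count L ch (fun κ => C.val (A' ∘ (φ κ).symm)) v]
          rw [Finset.sum_congr rfl (g := fun _ => (ch.map (C.val A')).count v), Finset.sum_const,
            smul_eq_mul]
          intro κ hκ
          rw [hΔg g op ch hg κ ((hmemL κ).1 hκ) A']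
        ext v
        apply Nat.eq_of_mul_eq_mul_left hLpos
        rw [havg, havg]
        congr 1
        refine Multiset.map_congr rfl fun h hh => ?_
        have hrkh : C.rk h < n := hrk ▸ C.acyclic g op ch hg h hh
        simp only [comp_symm]
        -- a position of the defect far from both gates
        obtain ⟨w', hw'⟩ := hne (Δ g ∪ Δ h) (Finset.union_subset (hΔS g) (hΔS h))
          ((Finset.card_union_le _ _).trans (by have := hΔs g; have := hΔs h; omega))
        have hw'g := hanti _ _ (Finset.subset_union_left (s₁ := Δ g) (s₂ := Δ h)) hw'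
        have hw'h := hanti _ _ (Finset.subset_union_right (s₁ := Δ g) (s₂ := Δ h)) hw'
        obtain ⟨γ, hγ, hγa⟩ := hmove (Δ g) (hΔS g) w' hw'g w hw
        have hm : Loc S (Δ g) (k * γ * k⁻¹) := loc_conj hγ k
        have e1 : ∀ κ, a w ∘ (φ (κ * k)).symm = a w' ∘ (φ ((κ * (k * γ * k⁻¹)) * k)).symm := by
          intro κ
          rw [hγa, comp_symm]
          congr 4
          group
        have e2 : (L.filter fun κ => C.val (a w ∘ (φ (κ * k)).symm) h = v).card =
            (L.filter fun κ => C.val (a w' ∘ (φ (κ * k)).symm) h = v).card := by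
          refine Finset.card_bij (fun κ _ => κ * (k * γ * k⁻¹)) ?_ ?_ ?_
          · intro κ hκ
            rw [Finset.mem_filter] at hκ ⊢
            exact ⟨(hmemL _).2 (loc_mul ((hmemL κ).1 hκ.1) hm), by rw [← e1]; exact hκ.2⟩
          · intro κ _ κ' _ h'
            exact mul_right_cancel h'
          · intro κ hκ
            rw [Finset.mem_filter] at hκ
            refine ⟨κ * (k * γ * k⁻¹)⁻¹, ?_, by group⟩
            rw [Finset.mem_filter]
            refine ⟨(hmemL _).2 (loc_mul ((hmemL κ).1 hκ.1) (loc_inv hm)), ?_⟩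
            rw [e1, inv_mul_cancel_right]
            exact hκ.2
        rw [e2]
        congr 1
        refine Finset.filter_congr fun κ hκ => ?_
        rw [ih (C.rk h) hrkh h rfl (κ * k) (fun i hi => by
          rw [Pi.mul_apply, ((hmemL κ).1 hκ).2 i (Or.inr hi), hk i hi, one_mul]) w' hw'h]
  intro w hw
  obtain ⟨w', hw'⟩ := hne (Δ C.out) (hΔS _) (by have := hΔs C.out; omega)
  have h1 := key _ C.out rfl 1 (fun _ _ => rfl) w' hw'
  have e0 : ∀ b : P → A, b ∘ (φ 1).symm = b := by
    intro b
    rw [map_one]
    rfl
  rw [e0, e0] at h1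
  obtain ⟨γ, hγ, hγa⟩ := hmove ∅ (Finset.empty_subset _) w hw w'
    (hanti _ _ (Finset.empty_subset _) hw')
  obtain ⟨τ, hτ⟩ := hsym (φ γ) ⟨γ, fun i hi => hγ.2 i (Or.inr hi), rfl⟩
  have h2 := val_aut C hτ (a w) _ C.out rfl
  rw [hτ.1, ← hγa] at h2
  rw [h1, h2]

theorem stTransfer' : StGate → StTransfer' := stTransfer

end Pool.Agent.Lib.SymCirc
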