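import Pool.Agent.Lib.SymCirc.Sym
import Pool.Agent.Lib.SymCirc.Transfer

/-!
Circuits with arbitrary gates: every function that is invariant under a group `K` has a
`K`-symmetric circuit with `|K| (|P| + 1) + 1` gates.
-/

namespace Pool.Agent.Lib.SymCirc

open Equiv

namespace TrivAux

variable {P A : Type} [Fintype P]

/-- All inputs with their values. -/
def all (a : P → A) : Multiset ((P × A) ⊕ Bool) :=
  (Finset.univ : Finset P).val.map fun p => Sum.inl (p, a p)

theorem all_inj {a b : P → A} (h : all a = all b) : a = b := by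
  funext p
  have h1 : (Sum.inl (p, a p) : (P × A) ⊕ Bool) ∈ all b := by
    rw [← h]
    exact Multiset.mem_map.2 ⟨p, Finset.mem_univ p, rfl⟩
  obtain ⟨p', _, h2⟩ := Multiset.mem_map.1 h1
  simp only [Sum.inl.injEq, Prod.mk.injEq] at h2
  obtain ⟨rfl, h3⟩ := h2
  exact h3.symm

open Classical in
/-- The circuit that reads everything. -/
noncomputable def triv (F : (P → A) → Prop) : Circuit P A ((P × A) ⊕ Bool) where
  G := Option P
  gate g := match g with
    | some p => .input p fun z => Sum.inl (p, z)
    | none => .inner (fun m => Sum.inr (decide (∃ a, m = all a ∧ F a)))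
        ((Finset.univ : Finset P).val.map some)
  out := none
  rk g := match g with
    | some _ => 0
    | none => 1
  acyclic g op ch h x hx := by
    cases g with
    | some p => cases h
    | none =>
      simp only [Gate.inner.injEq] at h
      rw [← h.2] at hx
      obtain ⟨p, _, rfl⟩ := Multiset.mem_map.1 hx
      exact Nat.zero_lt_one

open Classical in
theorem triv_val (F : (P → A) → Prop) (a : P → A) :
    (triv F).val a (triv F).out = Sum.inr (decide (F a)) := by
  have h1 : (triv F).gate none = .inner (fun m => Sum.inr (decide (∃ a, m = all a ∧ F a)))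
        ((Finset.univ : Finset P).val.map some) := rfl
  change (triv F).val a none = _
  rw [TransferAux.val_inner _ a h1, Multiset.map_map]
  have h2 : ((Finset.univ : Finset P).val.map ((triv F).val a ∘ some)) = all a := by
    refine Multiset.map_congr rfl fun p _ => ?_
    exact TransferAux.val_input (triv F) a (g := some p) (p := p) (f := fun z => Sum.inl (p, z)) rfl
  rw [h2]
  congr 1
  rw [decide_eq_decide]
  constructor
  · rintro ⟨b, hb, hF⟩
    rw [all_inj hb]
    exact hF
  · intro h
    exact ⟨a, rfl, h⟩

end TrivAux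

/-- Every `K`-invariant property has a `K`-symmetric circuit with `|K| (|P| + 1) + 1` gates. -/
theorem exists_symmetric {P A : Type} [Fintype P] (K : Subgroup (Perm P)) (F : (P → A) → Prop)
    (hF : ∀ σ ∈ K, ∀ a, F (a ∘ σ) ↔ F a) :
    ∃ (V : Type) (C : Circuit P A V) (yes : V), C.SymmetricUnder K ∧ Finite C.G ∧
      Nat.card C.G = Nat.card K * (Nat.card P + 1) + 1 ∧ ∀ a, C.val a C.out = yes ↔ F a := by
  classical
  have hfin : Finite K := inferInstance
  let V : Type := (P × A) ⊕ Bool
  let idem : Multiset V → V := fun m => if h : ∃ v, m ≠ 0 ∧ ∀ u ∈ m, u = v then h.choose else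
    Sum.inr false
  have hidem : ∀ (m : Multiset V) (v : V), m ≠ 0 → (∀ u ∈ m, u = v) → idem m = v := by
    intro m v hm hv
    have h : ∃ v, m ≠ 0 ∧ ∀ u ∈ m, u = v := ⟨v, hm, hv⟩
    simp only [idem]
    rw [dif_pos h]
    obtain ⟨u, hu⟩ := Multiset.exists_mem_of_ne_zero hm
    rw [← hv u hu, ← h.choose_spec.2 u hu]
  obtain ⟨C', h1, h2, h3, h4⟩ := stSym P A V K Set.univ idem (TrivAux.triv F) (Set.mem_univ _)
    hidem (fun _ _ _ _ => Set.mem_univ _) (by
      intro σ hσ a
      rw [TrivAux.triv_val, TrivAux.triv_val]
      congr 1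
      rw [decide_eq_decide]
      exact hF σ hσ a)
  have hG : Finite (TrivAux.triv F).G := inferInstanceAs (Finite (Option P))
  have hc : Nat.card (TrivAux.triv F).G = Nat.card P + 1 := by
    change Nat.card (Option P) = _
    rw [Nat.card_eq_fintype_card, Nat.card_eq_fintype_card, Fintype.card_option]
  refine ⟨V, C', Sum.inr true, h2, (h3 hG).1, ?_, fun a => ?_⟩
  · rw [(h3 hG).2, hc]
  · rw [h4, TrivAux.triv_val]
    change (Sum.inr (decide (F a)) : V) = Sum.inr true ↔ F a
    simp

end Pool.Agent.Lib.SymCirc
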