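import Pool.Agent.Lib.SymCirc.Transfer

/-!
# M2: supports of the gates
-/

namespace Pool.Agent.Lib.SymCirc

open Equiv

namespace GatesAux

variable {P A V : Type}

theorem relabel_mul {G : Type} (σ σ' : Perm P) (τ τ' : Perm G) (x : Gate P A V G) :
    (x.relabel σ' τ').relabel σ τ = x.relabel (σ * σ') (τ * τ') := by
  cases x with
  | input p f => rfl
  | inner op ch => simp [Gate.relabel, Multiset.map_map]

theorem relabel_one {G : Type} (x : Gate P A V G) : x.relabel 1 1 = x := by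
  cases x with
  | input p f => rfl
  | inner op ch => simp [Gate.relabel]

theorem aut_one (C : Circuit P A V) : C.IsAut 1 1 :=
  ⟨rfl, fun g => by rw [relabel_one]; rfl⟩

theorem aut_mul (C : Circuit P A V) {σ σ' : Perm P} {τ τ' : Perm C.G} (h : C.IsAut σ τ)
    (h' : C.IsAut σ' τ') : C.IsAut (σ * σ') (τ * τ') := by
  refine ⟨?_, fun g => ?_⟩
  · rw [Perm.mul_apply, h'.1, h.1]
  · rw [Perm.mul_apply, h.2, h'.2, relabel_mul]

theorem aut_inv (C : Circuit P A V) {σ : Perm P} {τ : Perm C.G} (h : C.IsAut σ τ) :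
    C.IsAut σ⁻¹ τ⁻¹ := by
  refine ⟨?_, fun g => ?_⟩
  · rw [Perm.inv_eq_iff_eq, h.1]
  · have h1 := h.2 (τ⁻¹ g)
    have h2 : τ (τ⁻¹ g) = g := by simp
    rw [h2] at h1
    rw [h1, relabel_mul, inv_mul_cancel, inv_mul_cancel, relabel_one]

end GatesAux

open GatesAux in
theorem stGate (hS : StSupp) : StGate := by
  classical
  intro β T P A V _ _ _ φ S q C g op ch hsym hg hfin hcard
  let H : Subgroup (β → T) :=
    { carrier := {k | (∀ i, i ∉ S → k i = 1) ∧ ∃ τ, C.IsAut (φ k) τ ∧ τ g = g}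
      mul_mem' := by
        rintro k k' ⟨h1, τ, h2, h3⟩ ⟨h1', τ', h2', h3'⟩
        refine ⟨fun i hi => by rw [Pi.mul_apply, h1 i hi, h1' i hi, one_mul], τ * τ', ?_, ?_⟩
        · rw [map_mul]; exact aut_mul C h2 h2'
        · rw [Perm.mul_apply, h3', h3]
      one_mem' := ⟨fun _ _ => rfl, 1, by rw [map_one]; exact aut_one C, rfl⟩
      inv_mem' := by
        rintro k ⟨h1, τ, h2, h3⟩
        refine ⟨fun i hi => by rw [Pi.inv_apply, h1 i hi, inv_one], τ⁻¹, ?_, ?_⟩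
        · rw [map_inv]; exact aut_inv C h2
        · rw [Perm.inv_eq_iff_eq, h3] }
  have hex : ∀ k : β → T, ∃ τ : Perm C.G, (∀ i, i ∉ S → k i = 1) → C.IsAut (φ k) τ := by
    intro k
    by_cases hk : ∀ i, i ∉ S → k i = 1
    · obtain ⟨τ, hτ⟩ := hsym (φ k) ⟨k, hk, rfl⟩
      exact ⟨τ, fun _ => hτ⟩
    · exact ⟨1, fun h => absurd h hk⟩
  choose τ hτ using hex
  obtain ⟨Δ, h1, h2, h3⟩ := hS β T C.G S q H (fun k => τ k g) (C.orbit (KK φ S) g) hfin hcard
    (fun k hk => ⟨φ k, ⟨k, hk, rfl⟩, τ k, hτ k hk, rfl⟩) (by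
      intro k k' hk hk' he
      refine ⟨fun i hi => by rw [Pi.mul_apply, Pi.inv_apply, hk i hi, hk' i hi, inv_one, one_mul],
        (τ k)⁻¹ * τ k', ?_, ?_⟩
      · rw [map_mul, map_inv]
        exact aut_mul C (aut_inv C (hτ k hk)) (hτ k' hk')
      · rw [Perm.mul_apply, Perm.inv_eq_iff_eq]
        exact he.symm)
  refine ⟨Δ, h1, h2, fun κ hκ a => ?_⟩
  obtain ⟨-, σ, h5, h6⟩ := h3 κ hκ
  have h7 := h5.2 g
  rw [h6, hg] at h7
  simp only [Gate.relabel, Gate.inner.injEq, true_and] at h7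
  conv_lhs => rw [h7]
  rw [Multiset.map_map]
  refine Multiset.map_congr rfl fun h _ => ?_
  exact TransferAux.val_aut C h5 a _ h rfl

end Pool.Agent.Lib.SymCirc
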