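import Pool.Agent.Lib.SymCirc.Spec

/-!
# M1. The support lemma
-/

set_option autoImplicit false

namespace Pool.Agent.Lib.SymCirc

open scoped commutatorElement

namespace SuppAux

/-- One half of the support: outside a small set of blocks, the group contains elements with
arbitrary value at the block and value `1` at all smaller blocks. -/
theorem side (β T X : Type) [Fintype β] [LinearOrder β] [Group T] (S : Finset β) (q : ℕ)
    (H : Subgroup (β → T)) (f : (β → T) → X) (O : Set X) (hO : O.Finite)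
    (hc : O.ncard < 2 ^ q) (h1 : ∀ k, (∀ i, i ∉ S → k i = 1) → f k ∈ O)
    (h2 : ∀ k k', (∀ i, i ∉ S → k i = 1) → (∀ i, i ∉ S → k' i = 1) → f k = f k' →
      k⁻¹ * k' ∈ H) :
    ∃ D : Finset β, D ⊆ S ∧ D.card < q ∧ ∀ i ∈ S, i ∉ D → ∀ t : T,
      ∃ x ∈ H, x i = t ∧ ∀ j < i, x j = 1 := by
  classical
  let D : Finset β := S.filter fun i => ∃ t : T, ∀ x ∈ H, (∀ j < i, x j = 1) → x i ≠ t
  have hD : ∀ i : β, ∃ t : T, i ∈ D → ∀ x ∈ H, (∀ j < i, x j = 1) → x i ≠ t := by
    intro i
    by_cases hi : i ∈ D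
    · obtain ⟨t, ht⟩ := (Finset.mem_filter.mp hi).2
      exact ⟨t, fun _ => ht⟩
    · exact ⟨1, fun h => absurd h hi⟩
  choose t ht using hD
  let xJ : Finset β → β → T := fun J i => if i ∈ J then t i else 1
  have hDS : D ⊆ S := Finset.filter_subset _ _
  have hoff : ∀ J ⊆ D, ∀ i, i ∉ S → xJ J i = 1 := by
    intro J hJ i hi
    have : i ∉ J := fun h => hi (hDS (hJ h))
    simp [xJ, this]
  -- key step
  have key : ∀ J ⊆ D, ∀ J' ⊆ D, ∀ i, i ∉ J → i ∈ J' → (∀ j < i, (j ∈ J ↔ j ∈ J')) →
      f (xJ J) = f (xJ J') → False := by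
    intro J hJ J' hJ' i hi hi' hj hf
    have hm := h2 (xJ J) (xJ J') (hoff J hJ) (hoff J' hJ') hf
    refine ht i (hJ' hi') _ hm ?_ ?_
    · intro j hji
      have := hj j hji
      by_cases h : j ∈ J
      · have h' := this.1 h
        simp [xJ, h, h']
      · have h' : j ∉ J' := fun h'' => h (this.2 h'')
        simp [xJ, h, h']
    · simp [xJ, hi, hi']
  have hinj : Set.InjOn (fun J : Finset β => f (xJ J)) (D.powerset : Set (Finset β)) := by
    intro J hJ J' hJ' hf
    have hJ1 : J ⊆ D := Finset.mem_powerset.mp hJ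
    have hJ2 : J' ⊆ D := Finset.mem_powerset.mp hJ'
    by_contra hne
    have hs : (symmDiff J J').Nonempty := by
      rw [Finset.nonempty_iff_ne_empty]
      intro h
      exact hne (symmDiff_eq_bot.mp h)
    have hmin := Finset.min'_mem _ hs
    set i := (symmDiff J J').min' hs with hi
    have hlt : ∀ j < i, (j ∈ J ↔ j ∈ J') := by
      intro j hj
      by_contra hcon
      have : j ∈ symmDiff J J' := by
        rw [Finset.mem_symmDiff]
        tauto
      exact absurd ((symmDiff J J').min'_le j this) (not_le.mpr hj)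
    rcases Finset.mem_symmDiff.mp hmin with ⟨ha, hb⟩ | ⟨ha, hb⟩
    · exact key J' hJ2 J hJ1 i hb ha (fun j hj => (hlt j hj).symm) hf.symm
    · exact key J hJ1 J' hJ2 i hb ha hlt hf
  have hcard : D.powerset.card ≤ O.ncard := by
    rw [← Set.ncard_coe_finset D.powerset]
    refine Set.ncard_le_ncard_of_injOn (fun J : Finset β => f (xJ J)) ?_ hinj hO
    intro J hJ
    exact h1 _ (hoff J (Finset.mem_powerset.mp hJ))
  refine ⟨D, hDS, ?_, ?_⟩
  · rw [Finset.card_powerset] at hcard
    exact (Nat.pow_lt_pow_iff_right (by norm_num : 1 < 2)).mp (lt_of_le_of_lt hcard hc)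
  · intro i hiS hiD s
    by_contra hcon
    apply hiD
    refine Finset.mem_filter.mpr ⟨hiS, s, ?_⟩
    intro x hx hxj hxi
    exact hcon ⟨x, hx, hxi, hxj⟩

/-- The other half of the support. -/
theorem side' (β T X : Type) [Fintype β] [LinearOrder β] [Group T] (S : Finset β) (q : ℕ)
    (H : Subgroup (β → T)) (f : (β → T) → X) (O : Set X) (hO : O.Finite)
    (hc : O.ncard < 2 ^ q) (h1 : ∀ k, (∀ i, i ∉ S → k i = 1) → f k ∈ O)
    (h2 : ∀ k k', (∀ i, i ∉ S → k i = 1) → (∀ i, i ∉ S → k' i = 1) → f k = f k' →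
      k⁻¹ * k' ∈ H) :
    ∃ D : Finset β, D ⊆ S ∧ D.card < q ∧ ∀ i ∈ S, i ∉ D → ∀ t : T,
      ∃ x ∈ H, x i = t ∧ ∀ j, i < j → x j = 1 :=
  side βᵒᵈ T X S q H f O hO hc h1 h2

end SuppAux

/-- M1. -/
theorem stSupp : StSupp := by
  intro β T X _ _ _ S q H f O hO hc h1 h2
  classical
  obtain ⟨D1, hD1, hc1, hx⟩ := SuppAux.side β T X S q H f O hO hc h1 h2
  obtain ⟨D2, hD2, hc2, hy⟩ := SuppAux.side' β T X S q H f O hO hc h1 h2
  refine ⟨D1 ∪ D2, Finset.union_subset hD1 hD2, ?_, ?_⟩
  · have := Finset.card_union_le D1 D2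
    omega
  · intro κ hκ
    apply Subgroup.pi_mem_of_mulSingle_mem
    intro i
    by_cases hi : i ∈ D1 ∪ D2 ∨ i ∉ S
    · rw [hκ.2 i hi, Pi.mulSingle_one]
      exact H.one_mem
    · push Not at hi
      obtain ⟨hi1, hi2⟩ := hi
      have hi3 : i ∉ D1 := fun h => hi1 (Finset.mem_union_left _ h)
      have hi4 : i ∉ D2 := fun h => hi1 (Finset.mem_union_right _ h)
      have hle : commutator T ≤ H.comap (MonoidHom.mulSingle (fun _ : β => T) i) := by
        rw [commutator_def, Subgroup.commutator_le]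
        intro s _ s' _
        obtain ⟨x, hxH, hxi, hxj⟩ := hx i hi2 hi3 s
        obtain ⟨y, hyH, hyi, hyj⟩ := hy i hi2 hi4 s'
        have hcomm : ⁅x, y⁆ ∈ H := by
          rw [commutatorElement_def]
          exact H.mul_mem (H.mul_mem (H.mul_mem hxH hyH) (H.inv_mem hxH)) (H.inv_mem hyH)
        have heq : ⁅x, y⁆ = Pi.mulSingle i ⁅s, s'⁆ := by
          funext j
          rcases lt_trichotomy j i with hj | hj | hj
          · rw [Pi.mulSingle_eq_of_ne hj.ne, commutatorElement_def]
            have := hxj j hj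
            simp [this]
          · subst hj
            rw [Pi.mulSingle_eq_same, commutatorElement_def, commutatorElement_def]
            simp only [Pi.mul_apply, Pi.inv_apply]
            rw [hxi]
            have : y j = s' := hyi
            rw [this]
          · rw [Pi.mulSingle_eq_of_ne hj.ne', commutatorElement_def]
            have : y j = 1 := hyj j hj
            simp [this]
        rw [Subgroup.mem_comap]
        rw [heq] at hcomm
        exact hcomm
      have := hle (hκ.1 i)
      rw [Subgroup.mem_comap] at this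
      exact this

end Pool.Agent.Lib.SymCirc
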