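import Pool.Agent.Lib.SymCirc.Spec

/-!
# Block permutations of the input bits
-/

namespace Pool.Agent.Lib.SymCirc

open Equiv Pool.Agent.Lib.MP_64d474_lc.Circ

namespace ActAux

theorem getD_ofFn {n : ℕ} (x : Fin n → Bool) (k : ℕ) (hk : k < n) :
    (List.ofFn x).getD k false = x ⟨k, hk⟩ := by
  rw [List.getD_eq_getElem _ _ (by simpa using hk), List.getElem_ofFn]

theorem pact_apply {t : ℕ} (k : Fin t → Perm (Fin 8)) (u : Pt t × Pt t) :
    pact k u = ((u.1.1, k u.1.1 u.1.2), (u.2.1, k u.2.1 u.2.2)) := rfl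

/-- The action on pairs of points as a homomorphism. -/
def pactHom (t : ℕ) : (Fin t → Perm (Fin 8)) →* Perm (Pt t × Pt t) where
  toFun := pact
  map_one' := by
    ext u <;> simp [pact_apply]
  map_mul' k k' := by
    ext u <;> simp [pact_apply]

/-- The action on the input bits as a homomorphism. -/
noncomputable def actHom (n : ℕ) : (Fin (blocks n) → Perm (Fin 8)) →* Perm (Fin n) :=
  (Perm.viaEmbeddingHom (emb n)).comp (pactHom (blocks n))

theorem actHom_apply (n : ℕ) (k : Fin (blocks n) → Perm (Fin 8)) : actHom n k = act n k := rfl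

theorem act_emb (n : ℕ) (k : Fin (blocks n) → Perm (Fin 8)) (u : Pt (blocks n) × Pt (blocks n)) :
    act n k (emb n u) = emb n (pact k u) :=
  Perm.viaEmbedding_apply _ _ _

theorem act_not (n : ℕ) (k : Fin (blocks n) → Perm (Fin 8)) (p : Fin n)
    (hp : p ∉ Set.range (emb n)) : act n k p = p :=
  Perm.viaEmbedding_apply_of_notMem _ _ _ hp

theorem pack_emb (n : ℕ) (y : Pt (blocks n) × Pt (blocks n) → Bool)
    (u : Pt (blocks n) × Pt (blocks n)) : pack n y (emb n u) = y u :=
  (emb n).injective.extend_apply _ _ _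

theorem pack_not (n : ℕ) (y : Pt (blocks n) × Pt (blocks n) → Bool) (p : Fin n)
    (hp : p ∉ Set.range (emb n)) : pack n y p = true := by
  unfold pack
  rw [Function.extend_apply']
  rintro ⟨u, hu⟩
  exact hp ⟨u, hu⟩

open Classical in
/-- The blocks of an input bit. -/
noncomputable def bl (n : ℕ) (p : Fin n) : Finset (Fin (blocks n)) :=
  if h : ∃ u, emb n u = p then {h.choose.1.1, h.choose.2.1} else ∅

theorem bl_emb (n : ℕ) (u : Pt (blocks n) × Pt (blocks n)) :
    bl n (emb n u) = {u.1.1, u.2.1} := by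
  unfold bl
  have h : ∃ u', emb n u' = emb n u := ⟨u, rfl⟩
  rw [dif_pos h]
  rw [(emb n).injective h.choose_spec]

theorem bl_not (n : ℕ) (p : Fin n) (hp : p ∉ Set.range (emb n)) : bl n p = ∅ := by
  unfold bl
  rw [dif_neg]
  rintro ⟨u, hu⟩
  exact hp ⟨u, hu⟩

end ActAux

open ActAux

theorem stLang : StLang := by
  refine ⟨?_, ?_, ?_⟩
  · intro n x
    have hlen : (List.ofFn x).length = n := List.length_ofFn
    constructor
    · rintro ⟨z, hz, h⟩
      rw [hlen] at h
      refine ⟨fun i => ⟨z i, hz i⟩, fun i j => ?_⟩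
      have h1 := h i i.2 j j.2
      have hlt := bitNo_lt (n := n) ((i, ⟨z i, hz i⟩), (j, ⟨z j, hz j⟩))
      simp only [bitNo] at hlt
      rw [getD_ofFn x _ hlt] at h1
      exact h1
    · rintro ⟨z, h⟩
      refine ⟨fun i => if hi : i < blocks n then (z ⟨i, hi⟩ : ℕ) else 0, ?_, ?_⟩
      · intro i
        dsimp only
        split_ifs with hi
        · exact (z ⟨i, hi⟩).2
        · norm_num
      · rw [hlen]
        intro i hi j hj
        have h1 := h ⟨i, hi⟩ ⟨j, hj⟩
        have hlt := bitNo_lt (n := n) ((⟨i, hi⟩, z ⟨i, hi⟩), (⟨j, hj⟩, z ⟨j, hj⟩))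
        simp only [bitNo] at hlt
        simp only [dif_pos hi, dif_pos hj]
        rw [getD_ofFn x _ hlt]
        exact h1
  · intro n y
    funext u
    exact pack_emb n y u
  · intro t k y
    constructor
    · rintro ⟨z, h⟩
      exact ⟨fun i => k i (z i), fun i j => h i j⟩
    · rintro ⟨z, h⟩
      refine ⟨fun i => (k i)⁻¹ (z i), fun i j => ?_⟩
      have h1 := h i j
      simpa [pact_apply] using h1

theorem stAct : StAct := by
  intro n
  refine ⟨actHom n, bl n, fun k => rfl, ?_, ?_, ?_, ?_, ?_⟩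
  · intro k p
    rw [actHom_apply]
    by_cases hp : p ∈ Set.range (emb n)
    · obtain ⟨u, rfl⟩ := hp
      rw [act_emb, bl_emb, bl_emb]
      rfl
    · rw [act_not n k p hp]
  · intro p
    by_cases hp : p ∈ Set.range (emb n)
    · obtain ⟨u, rfl⟩ := hp
      rw [bl_emb]
      exact Finset.card_le_two
    · rw [bl_not n p hp]
      simp
  · intro k x
    funext u
    change x (act n k (emb n u)) = x (emb n (pact k u))
    rw [act_emb]
  · intro k y
    have key : pack n (y ∘ (pact k).symm) ∘ (act n k) = pack n y := by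
      funext p
      by_cases hp : p ∈ Set.range (emb n)
      · obtain ⟨u, rfl⟩ := hp
        rw [Function.comp_apply, act_emb, pack_emb, pack_emb, Function.comp_apply,
          Equiv.symm_apply_apply]
      · rw [Function.comp_apply, act_not n k p hp, pack_not n _ p hp, pack_not n _ p hp]
    rw [← key]
    funext p
    simp [actHom_apply]
  · intro p y y' h
    by_cases hp : p ∈ Set.range (emb n)
    · obtain ⟨u, rfl⟩ := hp
      rw [pack_emb, pack_emb]
      exact h u (bl_emb n u)
    · rw [pack_not n _ p hp, pack_not n _ p hp]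

end Pool.Agent.Lib.SymCirc
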