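import Pool.Agent.Lib.MP_70d3b5_lc.Defs

/-!
# Symmetric circuits

Circuits whose gates are functions of the multiset of the values of their children, automorphisms of
circuits, and the language of the symmetry threshold theorem.
-/

namespace Pool.Agent.Lib.SymCirc

open Equiv

/-! ### Circuits -/

/-- Gates with values in `V`, for inputs `P → A`: an input gate applies a function to one of the
inputs, an inner gate applies a function to the multiset of the values of its children. -/
inductive Gate (P A V G : Type)
  | input (p : P) (f : A → V) : Gate P A V G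
  | inner (op : Multiset V → V) (ch : Multiset G) : Gate P A V G

/-- A permutation `σ` of the inputs and a permutation `τ` of the gates act on a gate. -/
def Gate.relabel {P A V G : Type} (σ : Perm P) (τ : Perm G) : Gate P A V G → Gate P A V G
  | .input p f => .input (σ p) f
  | .inner op ch => .inner op (ch.map τ)

/-- Circuits with inputs `P → A` and values in `V`. -/
structure Circuit (P A V : Type) where
  /-- the gates -/
  G : Type
  /-- the description of each gate -/
  gate : G → Gate P A V G
  /-- the output gate -/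
  out : G
  /-- the depth of a gate -/
  rk : G → ℕ
  acyclic : ∀ g op ch, gate g = .inner op ch → ∀ h ∈ ch, rk h < rk g

variable {P A V : Type}

/-- The value of a gate on the input `a`. -/
def Circuit.val (C : Circuit P A V) (a : P → A) (g : C.G) : V :=
  match h : C.gate g with
  | .input p f => f (a p)
  | .inner op ch => op (ch.attach.map fun x => C.val a x.1)
termination_by C.rk g
decreasing_by exact C.acyclic g op ch h x.1 x.2

/-- `τ` is an automorphism of the circuit which extends the permutation `σ` of the inputs. -/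
def Circuit.IsAut (C : Circuit P A V) (σ : Perm P) (τ : Perm C.G) : Prop :=
  τ C.out = C.out ∧ ∀ g, C.gate (τ g) = (C.gate g).relabel σ τ

/-- Every permutation in `K` extends to an automorphism of the circuit. -/
def Circuit.SymmetricUnder (C : Circuit P A V) (K : Set (Perm P)) : Prop :=
  ∀ σ ∈ K, ∃ τ : Perm C.G, C.IsAut σ τ

/-- The orbit of a gate under the automorphisms which extend permutations in `K`. -/
def Circuit.orbit (C : Circuit P A V) (K : Set (Perm P)) (g : C.G) : Set C.G :=
  {h | ∃ σ ∈ K, ∃ τ, C.IsAut σ τ ∧ τ g = h}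

/-- All inner gates apply functions from `B`. -/
def Circuit.Over (C : Circuit P A V) (B : Set (Multiset V → V)) : Prop :=
  ∀ g op ch, C.gate g = .inner op ch → op ∈ B

/-- The disjunction. -/
def orOp (m : Multiset Bool) : Bool := decide (true ∈ m)

/-! ### Block permutations -/

/-- The number of blocks of inputs of length `n`. -/
def blocks (n : ℕ) : ℕ := Nat.sqrt n / 8

theorem blocks_le (n : ℕ) : (8 * blocks n) * (8 * blocks n) ≤ n := by
  have h1 : 8 * blocks n ≤ Nat.sqrt n := Nat.mul_div_le _ _
  exact (Nat.mul_le_mul h1 h1).trans (Nat.sqrt_le n)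

/-- Points: block `i < t`, number `a < 8` in the block. -/
abbrev Pt (t : ℕ) : Type := Fin t × Fin 8

/-- The number of the input bit of a pair of points. -/
def bitNo {t : ℕ} (u : Pt t × Pt t) : ℕ :=
  (8 * (u.1.1 : ℕ) + (u.1.2 : ℕ)) * (8 * t) + (8 * (u.2.1 : ℕ) + (u.2.2 : ℕ))

theorem bitNo_lt {n : ℕ} (u : Pt (blocks n) × Pt (blocks n)) : bitNo u < n := by
  refine lt_of_lt_of_le ?_ (blocks_le n)
  obtain ⟨⟨⟨i, hi⟩, ⟨a, ha⟩⟩, ⟨⟨j, hj⟩, ⟨b, hb⟩⟩⟩ := u
  simp only [bitNo]
  have h1 : 8 * i + a + 1 ≤ 8 * blocks n := by omega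
  have h2 : 8 * j + b + 1 ≤ 8 * blocks n := by omega
  have h3 := Nat.mul_le_mul_right (8 * blocks n) h1
  rw [Nat.add_mul (8 * i + a) 1, one_mul] at h3
  omega

theorem bitNo_inj {t : ℕ} : Function.Injective (bitNo (t := t)) := by
  rintro ⟨⟨⟨i, hi⟩, ⟨a, ha⟩⟩, ⟨⟨j, hj⟩, ⟨b, hb⟩⟩⟩ ⟨⟨⟨i', hi'⟩, ⟨a', ha'⟩⟩, ⟨⟨j', hj'⟩, ⟨b', hb'⟩⟩⟩ h
  simp only [bitNo] at h
  have h1 : (8 * i + a) = 8 * i' + a' := by
    have e1 : ((8 * i + a) * (8 * t) + (8 * j + b)) / (8 * t) = 8 * i + a := by
      rw [Nat.mul_comm, Nat.mul_add_div (by omega), Nat.div_eq_of_lt (by omega), add_zero]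
    have e2 : ((8 * i' + a') * (8 * t) + (8 * j' + b')) / (8 * t) = 8 * i' + a' := by
      rw [Nat.mul_comm, Nat.mul_add_div (by omega), Nat.div_eq_of_lt (by omega), add_zero]
    rw [← e1, ← e2, h]
  rw [h1] at h
  have h2 : 8 * j + b = 8 * j' + b' := by omega
  have : i = i' ∧ a = a' ∧ j = j' ∧ b = b' := by omega
  obtain ⟨rfl, rfl, rfl, rfl⟩ := this
  rfl

/-- The input bit of a pair of points. -/
def emb (n : ℕ) : (Pt (blocks n) × Pt (blocks n)) ↪ Fin n :=
  ⟨fun u => ⟨bitNo u, bitNo_lt u⟩, fun _ _ h => bitNo_inj (congrArg Fin.val h)⟩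

/-- A permutation for each block gives a permutation of the points. -/
def ptMap {t : ℕ} (k : Fin t → Perm (Fin 8)) : Perm (Pt t) where
  toFun p := (p.1, k p.1 p.2)
  invFun p := (p.1, (k p.1)⁻¹ p.2)
  left_inv p := by simp
  right_inv p := by simp

/-- The action of a family of permutations of the blocks on the `n` input bits; the bits that
do not correspond to a pair of points are fixed. -/
noncomputable def act (n : ℕ) (k : Fin (blocks n) → Perm (Fin 8)) : Perm (Fin n) :=
  Perm.viaEmbedding ((ptMap k).prodCongr (ptMap k)) (emb n)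

/-- The group of the permutations of the input bits that are given by permutations of the points
inside the blocks in `S`. -/
def blockPerms (n : ℕ) (S : Finset (Fin (blocks n))) : Set (Perm (Fin n)) :=
  {σ | ∃ k : Fin (blocks n) → Perm (Fin 8), (∀ i, i ∉ S → k i = 1) ∧ σ = act n k}

/-- The language: one can choose a point `8 i + z i` in each block `i` so that the bits of all pairs
of chosen points are set. -/
def Lang : Set (List Bool) :=
  {x | ∃ z : ℕ → ℕ, (∀ i, z i < 8) ∧ ∀ i < blocks x.length, ∀ j < blocks x.length,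
    x.getD ((8 * i + z i) * (8 * blocks x.length) + (8 * j + z j)) false = true}

end Pool.Agent.Lib.SymCirc
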