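import Pool.Agent.Lib.SymCirc.Spec

/-!
Symmetry threshold: the block permutations form a group of order at most `(8!) ^ |S|`.
-/

namespace Pool.Agent.Lib.SymCirc

open Equiv

/-- The block permutations of `S` form a group of order at most `40320 ^ |S|`. -/
theorem group_of (hact : StAct) (n : ℕ) (S : Finset (Fin (blocks n))) :
    ∃ K : Subgroup (Perm (Fin n)), (K : Set (Perm (Fin n))) = blockPerms n S ∧
      Nat.card K ≤ 40320 ^ S.card := by
  classical
  obtain ⟨φ, bl, h1, -⟩ := hact n
  refine ⟨{ carrier := blockPerms n S, mul_mem' := ?_, one_mem' := ?_, inv_mem' := ?_ }, rfl, ?_⟩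
  · rintro _ _ ⟨k, hk, rfl⟩ ⟨k', hk', rfl⟩
    refine ⟨k * k', fun i hi => ?_, ?_⟩
    · rw [Pi.mul_apply, hk i hi, hk' i hi, one_mul]
    · rw [← h1, ← h1, ← h1, map_mul]
  · refine ⟨1, fun _ _ => rfl, ?_⟩
    rw [← h1, map_one]
  · rintro _ ⟨k, hk, rfl⟩
    refine ⟨k⁻¹, fun i hi => ?_, ?_⟩
    · rw [Pi.inv_apply, hk i hi, inv_one]
    · rw [← h1, ← h1, map_inv]
  · have hsurj : ∀ σ : blockPerms n S, ∃ f : S → Perm (Fin 8),
        act n (fun i => if h : i ∈ S then f ⟨i, h⟩ else 1) = σ.1 := by
      rintro ⟨_, k, hk, rfl⟩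
      refine ⟨fun i => k i.1, ?_⟩
      congr 1
      funext i
      split_ifs with h
      · rfl
      · exact (hk i h).symm
    choose f hf using hsurj
    have hinj : Function.Injective f := by
      intro σ σ' h
      apply Subtype.ext
      rw [← hf σ, ← hf σ', h]
    have hc : Nat.card (S → Perm (Fin 8)) = 40320 ^ S.card := by
      rw [Nat.card_eq_fintype_card, Fintype.card_fun, Fintype.card_perm, Fintype.card_fin,
        Fintype.card_coe]
      rfl
    rw [← hc]
    exact Nat.card_le_card_of_injective f hinj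

end Pool.Agent.Lib.SymCirc
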