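import Pool.Agent.Lib.SymCirc.Spec

/-!
Symmetry threshold: assembly.
-/

namespace Pool.Agent.Lib.SymCirc

open Equiv Pool.Agent.Lib.MP_64d474_lc.Circ

namespace MainAux

variable {N : Type} [Fintype N] [DecidableEq N]

theorem reach_mono (P : Bool → Perm N) {S S' : Finset (Site N)} (h : S ⊆ S') {x y : N}
    (hr : Reach P S' x y) : Reach P S x y := by
  have key : ∀ a b, Step P S' a b → Step P S a b := by
    rintro a b ⟨h1, h2, d, h3⟩
    refine ⟨fun hh => h1 (h hh), fun hh => h2 (h hh), d, ?_⟩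
    rcases h3 with ⟨h3, h4⟩ | ⟨h3, h4⟩
    · exact Or.inl ⟨h3, fun hh => h4 (h hh)⟩
    · exact Or.inr ⟨h3, fun hh => h4 (h hh)⟩
  induction hr with
  | refl => exact Relation.ReflTransGen.refl
  | tail _ hs ih => exact Relation.ReflTransGen.tail ih (key _ _ hs)

theorem big_mono (P : Bool → Perm N) {S S' : Finset (Site N)} (h : S ⊆ S') {C : Finset N}
    (hC : Big P S' C) : Big P S C :=
  ⟨hC.1, fun x hx hh => hC.2.1 x hx (h hh), fun x hx y hy => reach_mono P h (hC.2.2 x hx y hy)⟩

/-- two big sets meet, so their elements are connected -/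
theorem big_reach (P : Bool → Perm N) {S : Finset (Site N)} {C C' : Finset N}
    (hC : Big P S C) (hC' : Big P S C') {x y : N} (hx : x ∈ C) (hy : y ∈ C') :
    Reach P S x y := by
  have hne : (C ∩ C').Nonempty := by
    rw [Finset.nonempty_iff_ne_empty]
    intro he
    have h1 := Finset.card_union_of_disjoint (Finset.disjoint_iff_inter_eq_empty.mpr he)
    have h2 : (C ∪ C').card ≤ Fintype.card N := Finset.card_le_univ _
    have h3 := hC.1
    have h4 := hC'.1
    omega
  obtain ⟨z, hz⟩ := hne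
  rw [Finset.mem_inter] at hz
  exact Relation.ReflTransGen.trans (hC.2.2 x hx z hz.1) (hC'.2.2 z hz.2 y hy)

/-- The sites whose blocks are in `Δ`. -/
def pre {t : ℕ} (ι : Site N ↪ Fin t) (Δ : Finset (Fin t)) : Finset (Site N) :=
  Finset.univ.filter fun s => ι s ∈ Δ

omit [DecidableEq N] in
theorem mem_pre {t : ℕ} (ι : Site N ↪ Fin t) (Δ : Finset (Fin t)) (s : Site N) :
    s ∈ pre ι Δ ↔ ι s ∈ Δ := by
  simp [pre]

omit [DecidableEq N] in
theorem card_pre {t : ℕ} (ι : Site N ↪ Fin t) (Δ : Finset (Fin t)) : (pre ι Δ).card ≤ Δ.card := by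
  rw [← Finset.card_map ι]
  refine Finset.card_le_card fun i hi => ?_
  obtain ⟨s, hs, rfl⟩ := Finset.mem_map.mp hi
  exact (mem_pre ι Δ s).mp hs

/-- The available positions of the defect. -/
def wd {t : ℕ} (P : Bool → Perm N) (ι : Site N ↪ Fin t) (Δ : Finset (Fin t)) : Set N :=
  {w | ∃ C, Big P (pre ι Δ) C ∧ w ∈ C}

omit [Fintype N] in
theorem inst_agree {t : ℕ} (P : Bool → Perm N) (ι : Site N ↪ Fin t) (w : N)
    (u : Pt t × Pt t) (h : ι (.inr w) ≠ u.1.1 ∧ ι (.inr w) ≠ u.2.1) :
    inst P ι sh0 u = inst P ι (sh1 w) u := by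
  unfold inst
  congr 1
  apply propext
  refine forall_congr' fun s1 => forall_congr' fun s2 => imp_congr_right fun h1 =>
    imp_congr_right fun h2 => ?_
  rcases s1 with l | v <;> rcases s2 with l' | v'
  · exact Iff.rfl
  · have hv : v' ≠ w := by
      rintro rfl
      exact h.2 h2
    simp [rel, nl, sh0, sh1, hv]
  · have hv : v ≠ w := by
      rintro rfl
      exact h.1 h1
    simp [rel, nl, sh0, sh1, hv]
  · exact Iff.rfl

end MainAux

open MainAux

theorem main_of (hexp : StExpander) (hcomp : StComp) (hsat : StSat) (hunsat : StUnsat)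
    (hmoves : StMoves) (htr : StTransfer') (hlang : StLang) (hact : StAct) (hnp : StNP) :
    StMain' := by
  obtain ⟨hl1, hl2, hl3⟩ := hlang
  refine ⟨Lang, hnp.1, hnp.2, ?_, ?_⟩
  · rintro n σ ⟨k, _, rfl⟩ x
    obtain ⟨φ, bl, h1, _, _, h4, _⟩ := hact n
    rw [hl1, hl1, ← h1 k, h4, hl3]
  · intro n q S hq hS
    obtain ⟨φ, bl, h1, h2, h3, h4, h5, h6⟩ := hact n
    obtain ⟨P, hP⟩ := hexp (4 * q) (by omega)
    have hcard : Fintype.card (Site (Fin (128 * (4 * q)))) = 1536 * q := by
      simp only [Site, Fintype.card_sum, Fintype.card_prod, Fintype.card_bool, Fintype.card_fin]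
      ring
    -- placing the sites in the blocks of `S`
    obtain ⟨ι, hι⟩ : ∃ ι : Site (Fin (128 * (4 * q))) ↪ Fin (blocks n), ∀ s, ι s ∈ S := by
      have hle : Fintype.card (Site (Fin (128 * (4 * q)))) ≤ Fintype.card S := by
        rw [hcard, Fintype.card_coe]
        exact hS
      obtain ⟨f⟩ := Function.Embedding.nonempty_of_card_le hle
      exact ⟨f.trans (Function.Embedding.subtype _), fun s => (f s).2⟩
    have hbig : ∀ Δ : Finset (Fin (blocks n)), Δ.card ≤ 2 * (2 * q - 1) →
        ∃ C, Big P (pre ι Δ) C := by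
      intro Δ hΔ
      refine hcomp _ P (4 * q) (by simp; omega) hP _ ((card_pre ι Δ).trans (by omega))
    have hne : (wd P ι ∅).Nonempty := by
      obtain ⟨C, hC⟩ := hbig ∅ (by simp)
      have hC1 := hC.1
      have : 0 < C.card := by omega
      obtain ⟨w, hw⟩ := Finset.card_pos.mp this
      exact ⟨w, C, hC, hw⟩
    obtain ⟨w, hw⟩ := hne
    refine ⟨pack n (inst P ι sh0), pack n (inst P ι (sh1 w)), ?_, ?_, ?_⟩
    · rw [hl1, hl2]
      exact hsat _ _ P ι
    · rw [hl1, hl2]
      exact hunsat _ _ P ι w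
    · intro V C hsym horb
      have hK : blockPerms n S = KK φ S := by
        ext σ
        constructor
        · rintro ⟨k, hk, rfl⟩
          exact ⟨k, hk, (h1 k).symm⟩
        · rintro ⟨k, hk, rfl⟩
          exact ⟨k, hk, h1 k⟩
      rw [hK] at hsym horb
      refine htr (Fin (blocks n)) (Perm (Fin 8)) (Fin n) Bool V (Fin (128 * (4 * q))) φ S q
        (2 * q - 1) bl (pack n (inst P ι sh0)) (fun w => pack n (inst P ι (sh1 w))) (wd P ι) C
        (by omega) ?_ h2 ?_ ?_ ?_ ?_ hsym horb w hw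
      · intro p
        refine (Finset.card_le_card Finset.inter_subset_left).trans ((h3 p).trans (by omega))
      · intro Δ _ hΔ
        obtain ⟨C, hC⟩ := hbig Δ hΔ
        have hC1 := hC.1
        have : 0 < C.card := by omega
        obtain ⟨w, hw⟩ := Finset.card_pos.mp this
        exact ⟨w, C, hC, hw⟩
      · rintro Δ Δ' hΔ w ⟨C, hC, hw⟩
        refine ⟨C, big_mono P (fun s hs => ?_) hC, hw⟩
        rw [mem_pre] at hs ⊢
        exact hΔ hs
      · rintro Δ _ w ⟨C, hC, hw⟩ w' ⟨C', hC', hw'⟩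
        obtain ⟨γ, hγ, e⟩ := hmoves _ _ P ι S Δ (pre ι Δ) hι (fun s hs => (mem_pre ι Δ s).mpr hs)
          w w' (big_reach P hC hC' hw hw')
        refine ⟨γ, hγ, ?_⟩
        rw [← h5, e]
      · rintro p w ⟨C, hC, hw⟩
        refine h6 p _ _ fun u hu => inst_agree P ι w u ?_
        have hnot : ι (.inr w) ∉ bl p ∩ S := by
          intro hh
          exact hC.2.1 w hw ((mem_pre ι _ _).mpr hh)
        rw [Finset.mem_inter, hu] at hnot
        simp only [Finset.mem_insert, Finset.mem_singleton, not_and] at hnot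
        constructor
        · intro hh
          exact hnot (Or.inl hh) (hι _)
        · intro hh
          exact hnot (Or.inr hh) (hι _)

end Pool.Agent.Lib.SymCirc
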