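import Pool.Agent.Lib.SymCirc.Spec

/-!
Symmetry threshold, module M6: moving the shift along a path.
-/

namespace Pool.Agent.Lib.SymCirc

open Equiv Pool.Agent.Lib.MP_64d474_lc.Circ

namespace MovesAux

theorem tr_mem (c : Fin 8) : tr c ∈ commutator (Perm (Fin 8)) := by
  rw [alternatingGroup.commutator_perm_eq (by simp)]
  rw [Equiv.Perm.mem_alternatingGroup]
  revert c
  decide

theorem pact_mul {t : ℕ} (k k' : Fin t → Perm (Fin 8)) : pact (k * k') = pact k * pact k' := by
  ext u <;> rfl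

theorem pact_inv {t : ℕ} (k : Fin t → Perm (Fin 8)) : (pact k⁻¹) = (pact k).symm := by
  ext u <;> rfl

theorem comp_mul {t : ℕ} (k k' : Fin t → Perm (Fin 8)) (y : Pt t × Pt t → Bool) :
    y ∘ (pact (k * k')).symm = (y ∘ (pact k').symm) ∘ (pact k).symm := by
  rw [pact_mul]
  rfl

/-- the numbers of the vectors with support `{(false,false), (d,e)}` -/
def vec (d e : Bool) : Fin 8 :=
  match d, e with
  | false, false => 0
  | false, true => 3
  | true, false => 5
  | true, true => 1

theorem bitv_vec (d e a b : Bool) :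
    bitv (vec d e) a b = xor (!a && !b) (decide (a = d) && decide (b = e)) := by
  revert d e a b
  decide

section

variable {N : Type} [Fintype N] [DecidableEq N] {t : ℕ} (P : Bool → Perm N) (ι : Site N ↪ Fin t)

/-- The element which moves the shift from `x` to `P d x`. -/
def gam (d : Bool) (x : N) : Fin t → Perm (Fin 8) :=
  one (ι (.inr (P d x))) (tr (vec d false)) *
    (one (ι (.inl (d, P d x))) (tr 1) * one (ι (.inr x)) (tr (vec d true)))

theorem move (h1 : StNodeMove) (h2 : StLinkMove) (d : Bool) (x : N) :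
    inst P ι (sh1 x) ∘ (pact (gam P ι d x)).symm = inst P ι (sh1 (P d x)) := by
  unfold gam
  rw [comp_mul, comp_mul, h1 N t P ι, h2 N t P ι, h1 N t P ι]
  congr 1
  funext u a b
  simp only [bitv_vec, sh1, att]
  by_cases hx : u = x
  · subst hx
    by_cases hy : P d u = u
    · cases d <;> cases a <;> cases b <;> simp [hy]
    · cases a <;> cases b <;> cases d <;> simp_all
  · by_cases hy : u = P d x
    · subst hy
      have hx' : ¬ P d (P d x) = P d x := fun h => hx ((P d).injective h)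
      cases a <;> cases b <;> cases d <;> simp_all
    · have hx' : ¬ P d u = P d x := fun h => hx ((P d).injective h)
      cases a <;> cases b <;> cases d <;> simp_all

theorem loc_one {S Δ : Finset (Fin t)} {i : Fin t} (hi : i ∈ S) (hi' : i ∉ Δ) (c : Fin 8) :
    Loc S Δ (one i (tr c)) := by
  refine ⟨fun j => ?_, fun j hj => ?_⟩
  · unfold one
    by_cases h : j = i
    · subst h
      rw [Pi.mulSingle_eq_same]
      exact tr_mem c
    · rw [Pi.mulSingle_eq_of_ne h]
      exact one_mem _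
  · unfold one
    rw [Pi.mulSingle_eq_of_ne]
    rintro rfl
    rcases hj with h | h
    · exact hi' h
    · exact h hi

theorem loc_mul {S Δ : Finset (Fin t)} {k k' : Fin t → Perm (Fin 8)} (h : Loc S Δ k)
    (h' : Loc S Δ k') : Loc S Δ (k * k') :=
  ⟨fun j => mul_mem (h.1 j) (h'.1 j), fun j hj => by
    rw [Pi.mul_apply, h.2 j hj, h'.2 j hj, one_mul]⟩

theorem loc_inv {S Δ : Finset (Fin t)} {k : Fin t → Perm (Fin 8)} (h : Loc S Δ k) :
    Loc S Δ k⁻¹ :=
  ⟨fun j => inv_mem (h.1 j), fun j hj => by rw [Pi.inv_apply, h.2 j hj, inv_one]⟩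

end

end MovesAux

open MovesAux in
theorem stMoves (h1 : StNodeMove) (h2 : StLinkMove) : StMoves := by
  intro N _ _ t P ι S Δ Δ' hS hΔ x y hr
  have hloc : ∀ s : Site N, s ∉ Δ' → ∀ c, Loc S Δ (one (ι s) (tr c)) :=
    fun s hs c => loc_one (hS s) (fun h => hs (hΔ s h)) c
  induction hr with
  | refl =>
    refine ⟨1, ⟨fun _ => one_mem _, fun _ _ => rfl⟩, ?_⟩
    rfl
  | tail _ hs ih =>
    obtain ⟨γ, hγ, e⟩ := ih
    obtain ⟨hx, hy, d, hd⟩ := hs
    rcases hd with ⟨rfl, hl⟩ | ⟨rfl, hl⟩
    · refine ⟨gam P ι d _ * γ, loc_mul (loc_mul (hloc _ hy _) (loc_mul (hloc _ hl _)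
        (hloc _ hx _))) hγ, ?_⟩
      rw [comp_mul, ← e, move P ι h1 h2]
    · refine ⟨(gam P ι d _)⁻¹ * γ, loc_mul (loc_inv (loc_mul (hloc _ hx _) (loc_mul (hloc _ hl _)
        (hloc _ hy _)))) hγ, ?_⟩
      rw [comp_mul, ← e, ← move P ι h1 h2, pact_inv]
      funext u
      simp

end Pool.Agent.Lib.SymCirc
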