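import Pool.Agent.Lib.SymCirc.Spec
import Pool.Agent.Lib.MP_70d3b5_lc.Verifier

/-!
# M7: the language is in NP and in NEXP
-/

open Finset

namespace Pool.Agent.Lib.SymCirc

namespace NPAux

open Pool.Agent.Lib.MP_70d3b5_lc

variable {A : Type} {r : ℕ}

theorem sqrt_eq (n : ℕ) : Nat.sqrt n = Nat.findGreatest (fun m => m * m ≤ n) n := by
  symm
  rw [Nat.findGreatest_eq_iff]
  refine ⟨Nat.sqrt_le_self n, fun _ => Nat.sqrt_le n, fun m hm _ h => ?_⟩
  exact absurd (Nat.le_sqrt.2 h) (not_le.2 hm)

theorem feas_sqrt {f : List A → (Fin r → ℕ) → ℕ} (hf : Feas f) :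
    Feas (fun x v => Nat.sqrt (f x v)) := by
  refine Feas.comp1 (F := fun n => Nat.sqrt n) ?_ hf
  refine (Feas.findGreatest (p := fun (_ : List A) m (v : Fin 1 → ℕ) => m * m ≤ v 0)
    (n := fun _ v => v 0) (Feas.proj 0) ?_).congr fun x v => ?_
  · exact FeasP.le ((Feas.proj 0).mul (Feas.proj 0)) (Feas.proj 1)
  · exact sqrt_eq _

theorem feas_blocks {f : List A → (Fin r → ℕ) → ℕ} (hf : Feas f) :
    Feas (fun x v => blocks (f x v)) := by
  unfold blocks
  exact (feas_sqrt hf).div (Feas.const 8)

/-- The position that is tested for the pair of blocks `i, j`. -/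
def pos (s : List AA) (n i j : ℕ) : ℕ :=
  (8 * i + cf s n 7 i) * (8 * blocks n) + (8 * j + cf s n 7 j)

/-- The test of the verifier. -/
def Test (s : List AA) (n : ℕ) : Prop :=
  ∀ i < blocks n, ∀ j < blocks n, s[pos s n i j]? = some (Sum.inl true)

theorem feas_pos : Feas (fun (s : List AA) (v : Fin 3 → ℕ) => pos s (v 2) (v 1) (v 0)) := by
  unfold pos
  have h1 : Feas (fun (s : List AA) (v : Fin 3 → ℕ) => cf s (v 2) 7 (v 1)) :=
    Feas.comp3 (F := fun s n q j => cf s n q j) feas_cf (Feas.proj 2) (Feas.const 7) (Feas.proj 1)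
  have h2 : Feas (fun (s : List AA) (v : Fin 3 → ℕ) => cf s (v 2) 7 (v 0)) :=
    Feas.comp3 (F := fun s n q j => cf s n q j) feas_cf (Feas.proj 2) (Feas.const 7) (Feas.proj 0)
  exact ((((Feas.const 8).mul (Feas.proj 1)).add h1).mul ((Feas.const 8).mul
    (feas_blocks (Feas.proj 2)))).add (((Feas.const 8).mul (Feas.proj 0)).add h2)

theorem feas_test1 : FeasP (fun (s : List AA) (v : Fin 1 → ℕ) => Test s (v 0)) := by
  unfold Test
  refine FeasP.ball (p := fun s i (v : Fin 1 → ℕ) => ∀ j < blocks (v 0),
    s[pos s (v 0) i j]? = some (Sum.inl true)) (feas_blocks (Feas.proj 0)) ?_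
  refine FeasP.ball (p := fun s j (w : Fin 2 → ℕ) => s[pos s (w 1) (w 0) j]? = some (Sum.inl true))
    (feas_blocks (Feas.proj 1)) ?_
  exact FeasP.sym feas_pos _

theorem feas_test {f : List AA → (Fin r → ℕ) → ℕ} (hf : Feas f) :
    FeasP (fun s v => Test s (f s v)) := by
  classical
  have h := Feas.comp (FeasP.feas feas_test1) (g := fun _ => f) fun _ => hf
  exact FeasP.of h

/-- Acceptance; `l` is the length of `s`. -/
def Acc (s : List AA) (l : ℕ) : Prop := Test s (lenx s l)

theorem feas_acc : FeasP (fun (s : List AA) (v : Fin 1 → ℕ) => Acc s (v 0)) :=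
  feas_test (feas_lenx (Feas.proj 0))

/-! ### Correctness -/

theorem cf_le (s : List AA) (n i : ℕ) : cf s n 7 i ≤ 7 := by
  unfold cf
  exact (card_filter_le _ _).trans (by simp)

theorem test_iff (x y : List Bool) : Test (encPair x y) x.length ↔ ∀ i < blocks x.length,
    ∀ j < blocks x.length, x.getD ((8 * i + cf (encPair x y) x.length 7 i) * (8 * blocks x.length) +
      (8 * j + cf (encPair x y) x.length 7 j)) false = true := by
  unfold Test pos
  simp only [getElem_getD]

/-- The certificate. -/
def cert (t : ℕ) (z : ℕ → ℕ) : List Bool :=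
  (List.range (7 * t)).map fun u => decide (u % 7 < z (u / 7))

theorem cf_cert (x : List Bool) (t : ℕ) (z : ℕ → ℕ) (hz : ∀ i, z i < 8) {i : ℕ} (hi : i < t) :
    cf (encPair x (cert t z)) x.length 7 i = z i := by
  unfold cf
  have e : ((range 7).filter fun p =>
      (encPair x (cert t z))[x.length + (i * 7 + p)]? = some (Sum.inr true)) = range (z i) := by
    ext p
    simp only [mem_filter, mem_range, getElem_inr]
    have key : p < 7 → ((cert t z)[i * 7 + p]? = some true ↔ p < z i) := by
      intro hp
      have hlt : i * 7 + p < 7 * t := by omega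
      have e1 : (i * 7 + p) % 7 = p := by omega
      have e2 : (i * 7 + p) / 7 = i := by omega
      unfold cert
      rw [List.getElem?_map, List.getElem?_range hlt]
      simp only [Option.map_some, Option.some.injEq, decide_eq_true_eq, e1, e2]
    have h8 := hz i
    constructor
    · rintro ⟨h1, h2⟩
      exact (key h1).1 h2
    · intro h1
      have h7 : p < 7 := by omega
      exact ⟨h7, (key h7).2 h1⟩
  rw [e, card_range]

open Classical in
/-- The verifier. -/
noncomputable def verif (x y : List Bool) : Bool := decide (Acc (encPair x y) (x.length + y.length))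

theorem acc_iff (x y : List Bool) : Acc (encPair x y) (x.length + y.length) ↔
    Test (encPair x y) x.length := by
  unfold Acc
  rw [← length_encPair, lenx_eq]

theorem verif_sound {x y : List Bool} (h : verif x y = true) : x ∈ Lang := by
  classical
  have h : Acc (encPair x y) (x.length + y.length) := by
    unfold verif at h
    simpa using h
  rw [acc_iff, test_iff] at h
  refine ⟨fun i => cf (encPair x y) x.length 7 i, fun i => ?_, h⟩
  have := cf_le (encPair x y) x.length i
  show cf (encPair x y) x.length 7 i < 8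
  omega

theorem verif_complete {x : List Bool} (h : x ∈ Lang) :
    ∃ y : List Bool, y.length ≤ x.length ∧ verif x y = true := by
  classical
  obtain ⟨z, hz, h⟩ := h
  refine ⟨cert (blocks x.length) z, ?_, ?_⟩
  · unfold cert
    rw [List.length_map, List.length_range]
    have h1 : 8 * (Nat.sqrt x.length / 8) ≤ Nat.sqrt x.length := Nat.mul_div_le _ _
    have h2 := Nat.sqrt_le_self x.length
    unfold blocks
    omega
  · have h' : Acc (encPair x (cert (blocks x.length) z))
        (x.length + (cert (blocks x.length) z).length) := by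
      rw [acc_iff, test_iff]
      intro i hi j hj
      rw [cf_cert x _ z hz hi, cf_cert x _ z hz hj]
      exact h i hi j hj
    unfold verif
    simpa using h'

theorem verif_machine : ∃ (M : Turing.FinTM2) (eIn : M.Γ M.k₀ ≃ Bool ⊕ Bool)
    (eOut : M.Γ M.k₁ ≃ Bool) (p : Polynomial ℕ), ∀ x y : List Bool,
      Nonempty (Turing.TM2OutputsInTime M ((encPair x y).map eIn.symm)
        (some [eOut.symm (verif x y)]) (p.eval (x.length + y.length))) := by
  classical
  obtain ⟨M, eIn, eOut, p, hp⟩ := Feas.machine (FeasP.feas feas_acc)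
  refine ⟨M, eIn, eOut, p, fun x y => ?_⟩
  have h := hp (encPair x y)
  rw [length_encPair] at h
  convert h using 5
  unfold verif
  by_cases hA : Acc (encPair x y) (x.length + y.length)
  · simp [hA]
  · simp [hA]

theorem lang_inNP : InNP Lang := by
  obtain ⟨M, eIn, eOut, p, hp⟩ := verif_machine
  refine ⟨Polynomial.X, p.comp (Polynomial.C 2 * Polynomial.X), M, eIn, eOut, verif,
    fun x y hy => ?_, fun x => ⟨fun h => ?_, fun ⟨y, _, hy⟩ => verif_sound hy⟩⟩
  · refine outputs_mono (hp x y) ?_
    simp only [Polynomial.eval_X, Polynomial.eval_comp, Polynomial.eval_mul,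
      Polynomial.eval_C] at hy ⊢
    exact ev_mono p (by omega)
  · obtain ⟨y, hy, h'⟩ := verif_complete h
    exact ⟨y, by simpa using hy, h'⟩

theorem lang_inNEXP : InNEXP Lang := by
  obtain ⟨M, eIn, eOut, p, hp⟩ := verif_machine
  refine ⟨Polynomial.X, Polynomial.C (p.eval 1) + Polynomial.C p.natDegree *
    (Polynomial.X + Polynomial.C 1), M, eIn, eOut, verif,
    fun x y hy => ?_, fun x => ⟨fun h => ?_, fun ⟨y, _, hy⟩ => verif_sound hy⟩⟩
  · refine outputs_mono (hp x y) ?_
    simp only [Polynomial.eval_X, Polynomial.eval_mul, Polynomial.eval_add,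
      Polynomial.eval_C] at hy ⊢
    refine (ev_mono p ?_).trans (eval_two_pow p (x.length + 1))
    have : x.length < 2 ^ x.length := Nat.lt_two_pow_self
    rw [pow_succ]
    omega
  · obtain ⟨y, hy, h'⟩ := verif_complete h
    refine ⟨y, ?_, h'⟩
    simp only [Polynomial.eval_X]
    exact hy.trans Nat.lt_two_pow_self.le

end NPAux

/-- M7. The language is in NP and in NEXP. -/
theorem stNP : StNP := ⟨NPAux.lang_inNP, NPAux.lang_inNEXP⟩

end Pool.Agent.Lib.SymCirc
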