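import Pool.Agent.Lib.SymCirc.Spec

/-!
# Moves at a node and at a link
-/

namespace Pool.Agent.Lib.SymCirc

open Equiv Pool.Agent.Lib.MP_64d474_lc.Circ

namespace NodeLinkAux

variable {N : Type} {t : ℕ}

lemma pact_symm (k : Fin t → Perm (Fin 8)) (i j : Fin t) (a b : Fin 8) :
    (pact k).symm ((i, a), (j, b)) = ((i, (k i)⁻¹ a), (j, (k j)⁻¹ b)) := rfl

lemma inst_comp (P : Bool → Perm N) (ι : Site N ↪ Fin t) (sh sh' : N → Bool → Bool → Bool)
    (k : Fin t → Perm (Fin 8))
    (h : ∀ v a l b, nl P sh v ((k (ι (.inr v)))⁻¹ a) l ((k (ι (.inl l)))⁻¹ b) ↔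
      nl P sh' v a l b) :
    inst P ι sh ∘ (pact k).symm = inst P ι sh' := by
  have key : ∀ (s1 s2 : Site N) (a b : Fin 8),
      rel P sh (s1, (k (ι s1))⁻¹ a) (s2, (k (ι s2))⁻¹ b) ↔ rel P sh' (s1, a) (s2, b) := by
    intro s1 s2 a b
    cases s1 with
    | inl l =>
      cases s2 with
      | inl l' => exact Iff.rfl
      | inr v => exact h v b l a
    | inr v =>
      cases s2 with
      | inl l => exact h v a l b
      | inr v' => exact Iff.rfl
  funext u
  obtain ⟨⟨i, a⟩, ⟨j, b⟩⟩ := u
  show inst P ι sh ((pact k).symm ((i, a), (j, b))) = _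
  rw [pact_symm]
  unfold inst
  rw [decide_eq_decide]
  constructor
  · intro H s1 s2 h1 h2
    have h3 := H s1 s2 h1 h2
    simp only at h1 h2 h3 ⊢
    subst h1
    subst h2
    exact (key s1 s2 a b).mp h3
  · intro H s1 s2 h1 h2
    have h3 := H s1 s2 h1 h2
    simp only at h1 h2 h3 ⊢
    subst h1
    subst h2
    exact (key s1 s2 a b).mpr h3

lemma bitv_tr (c a : Fin 8) (d e : Bool) :
    bitv ((tr c)⁻¹ a) d e = xor (bitv a d e) (bitv c d e) := by
  revert c a d e
  decide

lemma tr_one_lt (b : Fin 8) : ((tr 1)⁻¹ b).val < 2 ↔ b.val < 2 := by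
  revert b
  decide

lemma tr_one_eq (b : Fin 8) (hb : b.val < 2) : ((tr 1)⁻¹ b).val = 1 ↔ ¬ b.val = 1 := by
  revert b
  decide

lemma one_self (i : Fin t) (π : Perm (Fin 8)) : one i π i = π := by
  simp [one]

lemma one_ne {i j : Fin t} (h : j ≠ i) (π : Perm (Fin 8)) : one i π j = 1 := by
  unfold one
  rw [Pi.mulSingle_apply, if_neg h]

end NodeLinkAux

open NodeLinkAux

/-- Adding a vector at a node. -/
theorem stNodeMove : StNodeMove := by
  intro N _ _ t P ι sh v c
  apply inst_comp
  intro v' a l b
  have h1 : ι (.inl l) ≠ ι (.inr v) := by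
    intro h
    have := ι.injective h
    simp at this
  rw [one_ne h1]
  by_cases hv : v' = v
  · subst hv
    rw [one_self]
    simp only [nl, bitv_tr, inv_one, Perm.coe_one, id_eq, decide_true, Bool.true_and]
    constructor
    · intro H d e hde
      obtain ⟨h2, h3⟩ := H d e hde
      refine ⟨h2, ?_⟩
      rw [← h3, Bool.xor_assoc, Bool.xor_comm (bitv c d e)]
    · intro H d e hde
      obtain ⟨h2, h3⟩ := H d e hde
      refine ⟨h2, ?_⟩
      rw [← h3, Bool.xor_assoc, Bool.xor_comm (bitv c d e)]
  · have h2 : ι (.inr v') ≠ ι (.inr v) := by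
      intro h
      have := ι.injective h
      simp only [Sum.inr.injEq] at this
      exact hv this
    rw [one_ne h2]
    simp [nl, hv]

/-- Exchanging the two points of a link. -/
theorem stLinkMove : StLinkMove := by
  intro N _ _ t P ι sh l
  apply inst_comp
  intro v a l' b
  have h1 : ι (.inr v) ≠ ι (.inl l) := by
    intro h
    have := ι.injective h
    simp at this
  rw [one_ne h1]
  by_cases hl : l' = l
  · subst hl
    rw [one_self]
    simp only [nl, inv_one, Perm.coe_one, id_eq, tr_one_lt]
    constructor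
    · intro H d e hde
      obtain ⟨h2, h3⟩ := H d e hde
      refine ⟨h2, ?_⟩
      rw [tr_one_eq b h2] at h3
      rw [hde, decide_eq_true (rfl : l' = l')]
      cases h4 : xor (bitv a d e) (sh v d e)
      · rw [h4] at h3
        have h5 : b.val = 1 := by
          by_contra h
          exact absurd (h3.mpr h) (by simp)
        rw [← Bool.xor_assoc, h4]
        simp [h5]
      · rw [h4] at h3
        have h5 : ¬ b.val = 1 := h3.mp rfl
        rw [← Bool.xor_assoc, h4]
        simp [h5]
    · intro H d e hde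
      obtain ⟨h2, h3⟩ := H d e hde
      refine ⟨h2, ?_⟩
      rw [tr_one_eq b h2]
      rw [hde, decide_eq_true (rfl : l' = l'), ← Bool.xor_assoc] at h3
      cases h4 : xor (bitv a d e) (sh v d e)
      · rw [h4] at h3
        have h5 : b.val = 1 := h3.mp rfl
        simp [h5]
      · rw [h4] at h3
        have h5 : ¬ b.val = 1 := by
          intro h
          exact absurd (h3.mpr h) (by simp)
        simp [h5]
  · have h2 : ι (.inl l') ≠ ι (.inl l) := by
      intro h
      have := ι.injective h
      simp only [Sum.inl.injEq] at this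
      exact hl this
    rw [one_ne h2]
    simp only [nl, inv_one, Perm.coe_one, id_eq]
    constructor
    · intro H d e hde
      obtain ⟨h3, h4⟩ := H d e hde
      refine ⟨h3, ?_⟩
      rw [hde, decide_eq_false hl, Bool.xor_false]
      exact h4
    · intro H d e hde
      obtain ⟨h3, h4⟩ := H d e hde
      refine ⟨h3, ?_⟩
      rw [hde, decide_eq_false hl, Bool.xor_false] at h4
      exact h4

end Pool.Agent.Lib.SymCirc
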