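import Pool.Agent.Lib.SymCirc.Spec

/-!
# The instances without shift are satisfiable, those with one shift are not
-/

namespace Pool.Agent.Lib.SymCirc

open Equiv Pool.Agent.Lib.MP_64d474_lc.Circ

namespace SatAux

theorem bitv_zero (d e : Bool) : bitv 0 d e = false := by
  cases d <;> cases e <;> decide

/-- A bit as an element of `ZMod 2`. -/
def f2 (b : Bool) : ZMod 2 := if b then 1 else 0

theorem f2_xor (a b : Bool) : f2 (xor a b) = f2 a + f2 b := by
  cases a <;> cases b <;> decide

theorem bitv_sum (a : Fin 8) : f2 (bitv a false false) + f2 (bitv a false true) +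
    (f2 (bitv a true false) + f2 (bitv a true true)) = 0 := by
  revert a; decide

theorem add_self (x : ZMod 2) : x + x = 0 := CharTwo.add_self_eq_zero x

end SatAux

open SatAux

theorem stSat : StSat := by
  classical
  intro N _ _ t P ι
  refine ⟨fun _ => 0, fun i j => ?_⟩
  simp only [inst, decide_eq_true_eq]
  intro s1 s2 _ _
  have key : ∀ (v : N) (l : Bool × N), nl P sh0 v 0 l 0 := by
    intro v l d e _
    refine ⟨by decide, ?_⟩
    rw [bitv_zero]
    simp [sh0]
  cases s1 with
  | inl l =>
    cases s2 with
    | inl l' => trivial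
    | inr v => exact key v l
  | inr v =>
    cases s2 with
    | inl l' => exact key v l'
    | inr v' => trivial

theorem stUnsat : StUnsat := by
  classical
  intro N _ _ t P ι w hsat
  obtain ⟨z, hz⟩ := hsat
  have h1 : ∀ v d e, xor (bitv (z (ι (.inr v))) d e) (sh1 w v d e) =
      decide ((z (ι (.inl (att P v d e)))).val = 1) := by
    intro v d e
    have h := hz (ι (.inr v)) (ι (.inl (att P v d e)))
    simp only [inst, decide_eq_true_eq] at h
    have h2 := h (.inr v) (.inl (att P v d e)) rfl rfl
    have h3 : nl P (sh1 w) v (z (ι (.inr v))) (att P v d e) (z (ι (.inl (att P v d e)))) := h2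
    have h4 := (h3 d e rfl).2
    rw [Bool.eq_iff_iff, h4, decide_eq_true_eq]
  set b : Bool × N → ZMod 2 := fun l => f2 (decide ((z (ι (.inl l))).val = 1)) with hb
  have h2 : ∀ v d e, f2 (bitv (z (ι (.inr v))) d e) + f2 (sh1 w v d e) = b (att P v d e) := by
    intro v d e
    rw [← f2_xor, h1]
  have h3 : ∀ v : N, (f2 (sh1 w v false false) + f2 (sh1 w v false true) +
      (f2 (sh1 w v true false) + f2 (sh1 w v true true))) =
      (b (false, v) + b (false, P false v)) + (b (true, v) + b (true, P true v)) := by
    intro v
    have e1 := h2 v false false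
    have e2 := h2 v false true
    have e3 := h2 v true false
    have e4 := h2 v true true
    have e5 := bitv_sum (z (ι (.inr v)))
    simp only [att, Bool.false_eq_true, if_false, if_true] at e1 e2 e3 e4
    rw [← e1, ← e2, ← e3, ← e4]
    linear_combination -e5
  have h4 : ∀ v : N, (f2 (sh1 w v false false) + f2 (sh1 w v false true) +
      (f2 (sh1 w v true false) + f2 (sh1 w v true true))) = if v = w then 1 else 0 := by
    intro v
    by_cases hv : v = w
    · simp [sh1, hv, f2]
    · simp [sh1, hv, f2]
  have h5 : (∑ v : N, if v = w then (1 : ZMod 2) else 0) = 1 := by simp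
  have h6 : ∑ v : N, ((b (false, v) + b (false, P false v)) + (b (true, v) + b (true, P true v))) =
      0 := by
    rw [Finset.sum_add_distrib, Finset.sum_add_distrib, Finset.sum_add_distrib,
      Equiv.sum_comp (P false) (fun v => b (false, v)), Equiv.sum_comp (P true) (fun v => b (true, v)),
      SatAux.add_self, SatAux.add_self, add_zero]
  have h7 : (1 : ZMod 2) = 0 := by
    refine h5.symm.trans (Eq.trans ?_ h6)
    refine Finset.sum_congr rfl fun v _ => ?_
    exact (h4 v).symm.trans (h3 v)
  exact absurd h7 (by decide)

end Pool.Agent.Lib.SymCirc
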