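import Pool.Agent.Lib.SymCirc.Defs
import Pool.Agent.Lib.MP_64d474_lc.Circ.Spec

/-!
# Symmetry threshold: module statements
-/

namespace Pool.Agent.Lib.SymCirc

open Equiv Pool.Agent.Lib.MP_64d474_lc.Circ

/-! ### Abstract part -/

/-- The permutations given by the families of elements of `T` supported in `S`. -/
def KK {β T P : Type} [Group T] (φ : (β → T) →* Perm P) (S : Finset β) : Set (Perm P) :=
  {σ | ∃ k : β → T, (∀ i, i ∉ S → k i = 1) ∧ σ = φ k}

/-- `κ` is supported in `S`, trivial on `Δ`, and all its components are in the commutator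
subgroup. -/
def Loc {β T : Type} [Group T] (S Δ : Finset β) (κ : β → T) : Prop :=
  (∀ i, κ i ∈ commutator T) ∧ ∀ i, i ∈ Δ ∨ i ∉ S → κ i = 1

/-- M1. Support lemma: a subgroup of small index of `T ^ S` (the cosets are separated by the map `f`
into a set `O` of fewer than `2 ^ q` elements) contains all elements of `[T,T] ^ (S \ Δ)` for a set
`Δ` of fewer than `2 q` blocks. -/
def StSupp : Prop :=
  ∀ (β T X : Type) [Fintype β] [LinearOrder β] [Group T] (S : Finset β) (q : ℕ)
    (H : Subgroup (β → T)) (f : (β → T) → X) (O : Set X), O.Finite → O.ncard < 2 ^ q →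
    (∀ k, (∀ i, i ∉ S → k i = 1) → f k ∈ O) →
    (∀ k k', (∀ i, i ∉ S → k i = 1) → (∀ i, i ∉ S → k' i = 1) → f k = f k' → k⁻¹ * k' ∈ H) →
    ∃ Δ : Finset β, Δ ⊆ S ∧ Δ.card < 2 * q ∧ ∀ κ : β → T, Loc S Δ κ → κ ∈ H

/-- M2. Supports of the gates: the multiset of the values of the children of a gate with a small
orbit is invariant under `[T,T] ^ (S \ Δ)` for a small `Δ`. -/
def StGate : Prop :=
  ∀ (β T P A V : Type) [Fintype β] [LinearOrder β] [Group T] (φ : (β → T) →* Perm P)
    (S : Finset β) (q : ℕ) (C : Circuit P A V) (g : C.G) (op : Multiset V → V)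
    (ch : Multiset C.G), C.SymmetricUnder (KK φ S) → C.gate g = .inner op ch →
    (C.orbit (KK φ S) g).Finite → (C.orbit (KK φ S) g).ncard < 2 ^ q →
    ∃ Δ : Finset β, Δ ⊆ S ∧ Δ.card < 2 * q ∧ ∀ κ : β → T, Loc S Δ κ → ∀ a : P → A,
      ch.map (C.val (a ∘ (φ κ).symm)) = ch.map (C.val a)

/-- M3. Transfer: `a0` and `a w` cannot be distinguished by symmetric circuits with small orbits.
`bl p` is the set of blocks on which the input `p` depends; `Wd Δ` is the set of the positions of
the defect that are available outside `Δ`. -/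
def StTransfer' : Prop :=
  ∀ (β T P A V W : Type) [Fintype β] [LinearOrder β] [Group T] [Finite T]
    (φ : (β → T) →* Perm P) (S : Finset β) (q s : ℕ) (bl : P → Finset β) (a0 : P → A)
    (a : W → P → A) (Wd : Finset β → Set W) (C : Circuit P A V),
    2 * q ≤ s + 1 → (∀ p, (bl p ∩ S).card ≤ s) → (∀ k p, bl (φ k p) = bl p) →
    (∀ Δ : Finset β, Δ ⊆ S → Δ.card ≤ 2 * s → (Wd Δ).Nonempty) →
    (∀ Δ Δ' : Finset β, Δ ⊆ Δ' → Wd Δ' ⊆ Wd Δ) →
    (∀ Δ : Finset β, Δ ⊆ S → ∀ w ∈ Wd Δ, ∀ w' ∈ Wd Δ,
      ∃ γ : β → T, Loc S Δ γ ∧ a w' = a w ∘ (φ γ).symm) →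
    (∀ p, ∀ w ∈ Wd (bl p ∩ S), a0 p = a w p) →
    C.SymmetricUnder (KK φ S) →
    (∀ g, (C.orbit (KK φ S) g).Finite ∧ (C.orbit (KK φ S) g).ncard < 2 ^ q) →
    ∀ w ∈ Wd ∅, C.val a0 C.out = C.val (a w) C.out

/-- M8. Symmetrisation. -/
def StSym : Prop :=
  ∀ (P A V : Type) (K : Subgroup (Perm P)) [Finite K] (B : Set (Multiset V → V))
    (idem : Multiset V → V) (C : Circuit P A V), idem ∈ B →
    (∀ (m : Multiset V) (v : V), m ≠ 0 → (∀ u ∈ m, u = v) → idem m = v) →
    C.Over B → (∀ σ ∈ K, ∀ a, C.val (a ∘ σ) C.out = C.val a C.out) →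
    ∃ C' : Circuit P A V, C'.Over B ∧ C'.SymmetricUnder K ∧
      (Finite C.G → Finite C'.G ∧ Nat.card C'.G = Nat.card K * Nat.card C.G + 1) ∧
      ∀ a, C'.val a C'.out = C.val a C.out

/-! ### The constraint satisfaction instances -/

section CSP

variable {N : Type} [DecidableEq N]

/-- The bits of the points of the block of a node: an even vector indexed by the four connections
of the node. -/
def bitv (a : Fin 8) (d e : Bool) : Bool :=
  match d, e with
  | false, false => a.val.testBit 0
  | false, true => a.val.testBit 1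
  | true, false => a.val.testBit 2
  | true, true => xor (a.val.testBit 0) (xor (a.val.testBit 1) (a.val.testBit 2))

/-- The link to which the connection `(d, e)` of the node `v` is attached. -/
def att (P : Bool → Perm N) (v : N) (d e : Bool) : Bool × N := (d, if e then P d v else v)

/-- The point `a` of node `v` is compatible with the point `b` of the link `l`, for the shifts
`sh`. -/
def nl (P : Bool → Perm N) (sh : N → Bool → Bool → Bool) (v : N) (a : Fin 8) (l : Bool × N)
    (b : Fin 8) : Prop :=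
  ∀ d e, att P v d e = l → b.val < 2 ∧ (xor (bitv a d e) (sh v d e) = true ↔ b.val = 1)

/-- Compatibility of two points. -/
def rel (P : Bool → Perm N) (sh : N → Bool → Bool → Bool) :
    Site N × Fin 8 → Site N × Fin 8 → Prop
  | (.inr v, a), (.inl l, b) => nl P sh v a l b
  | (.inl l, b), (.inr v, a) => nl P sh v a l b
  | _, _ => True

open Classical in
/-- The instance with shifts `sh`, as a function of pairs of points; the sites are placed in the
blocks by `ι`, all other pairs are compatible. -/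
noncomputable def inst {t : ℕ} (P : Bool → Perm N) (ι : Site N ↪ Fin t)
    (sh : N → Bool → Bool → Bool) (u : Pt t × Pt t) : Bool :=
  decide (∀ s1 s2 : Site N, ι s1 = u.1.1 → ι s2 = u.2.1 → rel P sh (s1, u.1.2) (s2, u.2.2))

/-- No shift. -/
def sh0 : N → Bool → Bool → Bool := fun _ _ _ => false

/-- One shift, at the connection `(false, false)` of the node `w`. -/
def sh1 (w : N) : N → Bool → Bool → Bool := fun v d e => decide (v = w) && (!d && !e)

/-- There is a choice of points which are pairwise compatible. -/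
def Sat {t : ℕ} (x : Pt t × Pt t → Bool) : Prop :=
  ∃ z : Fin t → Fin 8, ∀ i j, x ((i, z i), (j, z j)) = true

/-- The permutation of the points of a node: addition of the vector with number `c`. -/
def tr (c : Fin 8) : Perm (Fin 8) where
  toFun a := ⟨(a.val ^^^ c.val) % 8, Nat.mod_lt _ (by norm_num)⟩
  invFun a := ⟨(a.val ^^^ c.val) % 8, Nat.mod_lt _ (by norm_num)⟩
  left_inv := by revert c; decide
  right_inv := by revert c; decide

/-- A permutation in one block. -/
def one {t : ℕ} (i : Fin t) (π : Perm (Fin 8)) : Fin t → Perm (Fin 8) := Pi.mulSingle i π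

/-- The action on pairs of points. -/
def pact {t : ℕ} (k : Fin t → Perm (Fin 8)) : Perm (Pt t × Pt t) := (ptMap k).prodCongr (ptMap k)

end CSP

/-- M4a. The instance without shift is satisfiable. -/
def StSat : Prop :=
  ∀ (N : Type) [Fintype N] [DecidableEq N] (t : ℕ) (P : Bool → Perm N) (ι : Site N ↪ Fin t),
    Sat (inst P ι sh0)

/-- M4b. The instance with one shift is not satisfiable. -/
def StUnsat : Prop :=
  ∀ (N : Type) [Fintype N] [DecidableEq N] (t : ℕ) (P : Bool → Perm N) (ι : Site N ↪ Fin t) (w : N),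
    ¬ Sat (inst P ι (sh1 w))

/-- M5a. Adding a vector at a node changes the shifts of the node. -/
def StNodeMove : Prop :=
  ∀ (N : Type) [Fintype N] [DecidableEq N] (t : ℕ) (P : Bool → Perm N) (ι : Site N ↪ Fin t)
    (sh : N → Bool → Bool → Bool) (v : N) (c : Fin 8),
    inst P ι sh ∘ (pact (one (ι (.inr v)) (tr c))).symm =
      inst P ι fun u d e => xor (sh u d e) (decide (u = v) && bitv c d e)

/-- M5b. Exchanging the two points of a link changes the shifts of the two connections attached to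
the link. -/
def StLinkMove : Prop :=
  ∀ (N : Type) [Fintype N] [DecidableEq N] (t : ℕ) (P : Bool → Perm N) (ι : Site N ↪ Fin t)
    (sh : N → Bool → Bool → Bool) (l : Bool × N),
    inst P ι sh ∘ (pact (one (ι (.inl l)) (tr 1))).symm =
      inst P ι fun u d e => xor (sh u d e) (decide (att P u d e = l))

/-- M6. Moving the shift along a path which avoids the blocks in `Δ`. -/
def StMoves : Prop :=
  ∀ (N : Type) [Fintype N] [DecidableEq N] (t : ℕ) (P : Bool → Perm N) (ι : Site N ↪ Fin t)
    (S Δ : Finset (Fin t)) (Δ' : Finset (Site N)), (∀ s, ι s ∈ S) → (∀ s, ι s ∈ Δ → s ∈ Δ') →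
    ∀ x y : N, Reach P Δ' x y → ∃ γ : Fin t → Perm (Fin 8), Loc S Δ γ ∧
      inst P ι (sh1 y) = inst P ι (sh1 x) ∘ (pact γ).symm

/-! ### The language -/

/-- The function of the pairs of points given by an input. -/
def unpack (n : ℕ) (x : Fin n → Bool) : Pt (blocks n) × Pt (blocks n) → Bool := x ∘ emb n

open Classical in
/-- The input given by a function of the pairs of points. -/
noncomputable def pack (n : ℕ) (y : Pt (blocks n) × Pt (blocks n) → Bool) : Fin n → Bool :=
  Function.extend (emb n) y fun _ => true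

/-- M7. The language is in NP and in NEXP. -/
def StNP : Prop := MP_70d3b5_lc.InNP Lang ∧ MP_70d3b5_lc.InNEXP Lang

/-- M9a. The language and the action in terms of pairs of points. -/
def StLang : Prop :=
  (∀ n (x : Fin n → Bool), List.ofFn x ∈ Lang ↔ Sat (unpack n x)) ∧
  (∀ n (y : Pt (blocks n) × Pt (blocks n) → Bool), unpack n (pack n y) = y) ∧
  (∀ t (k : Fin t → Perm (Fin 8)) (y : Pt t × Pt t → Bool), Sat (y ∘ pact k) ↔ Sat y)

/-- M9b. The action is a homomorphism, compatible with `pack`. -/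
def StAct : Prop :=
  ∀ n, ∃ (φ : (Fin (blocks n) → Perm (Fin 8)) →* Perm (Fin n)) (bl : Fin n → Finset (Fin (blocks n))),
    (∀ k, φ k = act n k) ∧ (∀ k p, bl (φ k p) = bl p) ∧ (∀ p, (bl p).card ≤ 2) ∧
    (∀ k x, unpack n (x ∘ φ k) = unpack n x ∘ pact k) ∧
    (∀ k y, pack n (y ∘ (pact k).symm) = pack n y ∘ (φ k).symm) ∧
    ∀ p y y', (∀ u : Pt (blocks n) × Pt (blocks n), bl p = {u.1.1, u.2.1} → y u = y' u) →
      pack n y p = pack n y' p

/-- The final theorem. -/
def StMain' : Prop :=
  ∃ L : Set (List Bool), MP_70d3b5_lc.InNP L ∧ MP_70d3b5_lc.InNEXP L ∧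
    (∀ n, ∀ σ ∈ blockPerms n Finset.univ, ∀ x : Fin n → Bool,
      List.ofFn (x ∘ σ) ∈ L ↔ List.ofFn x ∈ L) ∧
    ∀ (n q : ℕ) (S : Finset (Fin (blocks n))), 2 ≤ q → 1536 * q ≤ S.card →
      ∃ x y : Fin n → Bool, List.ofFn x ∈ L ∧ List.ofFn y ∉ L ∧
        ∀ (V : Type) (C : Circuit (Fin n) Bool V), C.SymmetricUnder (blockPerms n S) →
          (∀ g, (C.orbit (blockPerms n S) g).Finite ∧
            (C.orbit (blockPerms n S) g).ncard < 2 ^ q) →
          C.val x C.out = C.val y C.out

end Pool.Agent.Lib.SymCirc
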