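import Pool.Agent.Lib.SymCirc.Spec

/-!
# Symmetrisation of circuits
-/

namespace Pool.Agent.Lib.SymCirc

open Equiv

namespace SymAux

variable {P A V : Type}

theorem val_of_input (C : Circuit P A V) {a : P → A} {g : C.G} {p : P} {f : A → V}
    (hg : C.gate g = .input p f) : C.val a g = f (a p) := by
  rw [Circuit.val]
  split
  · rename_i p' f' h'
    rw [hg] at h'
    cases h'
    rfl
  · rename_i op ch h'
    rw [hg] at h'
    cases h'

theorem val_of_inner (C : Circuit P A V) {a : P → A} {g : C.G} {op : Multiset V → V}
    {ch : Multiset C.G} (hg : C.gate g = .inner op ch) : C.val a g = op (ch.map (C.val a)) := by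
  rw [Circuit.val]
  split
  · rename_i p' f' h'
    rw [hg] at h'
    cases h'
  · rename_i op' ch' h'
    rw [hg] at h'
    cases h'
    congr 1
    exact Multiset.attach_map_val' ch (C.val a)

variable (K : Subgroup (Perm P)) [Fintype K]

/-- The gates of the copy with number `σ`. -/
def lift {G : Type} (σ : K) : Gate P A V G → Gate P A V (Option (K × G))
  | .input p f => .input ((σ : Perm P) p) f
  | .inner op ch => .inner op (ch.map fun h => some (σ, h))

/-- The symmetrised circuit. -/
def symC (idem : Multiset V → V) (C : Circuit P A V) : Circuit P A V where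
  G := Option (K × C.G)
  gate := fun g => match g with
    | none => .inner idem ((Finset.univ : Finset K).val.map fun σ => some (σ, C.out))
    | some (σ, g) => lift K σ (C.gate g)
  out := none
  rk := fun g => match g with
    | none => C.rk C.out + 1
    | some (_, g) => C.rk g
  acyclic := by
    rintro (_ | ⟨σ, g⟩) op ch h x hx
    · simp only [Gate.inner.injEq] at h
      obtain ⟨_, rfl⟩ := h
      obtain ⟨σ, _, rfl⟩ := Multiset.mem_map.1 hx
      exact Nat.lt_succ_self _
    · cases hg : C.gate g with
      | input p f => simp only [hg, lift] at h; cases h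
      | inner op' ch' =>
        simp only [hg, lift, Gate.inner.injEq] at h
        obtain ⟨_, rfl⟩ := h
        obtain ⟨y, hy, rfl⟩ := Multiset.mem_map.1 hx
        exact C.acyclic g op' ch' hg y hy

theorem val_some (idem : Multiset V → V) (C : Circuit P A V) (a : P → A) (σ : K) (g : C.G) :
    (symC K idem C).val a (some (σ, g)) = C.val (a ∘ (σ : Perm P)) g := by
  have key : ∀ m : ℕ, ∀ g, C.rk g = m →
      (symC K idem C).val a (some (σ, g)) = C.val (a ∘ (σ : Perm P)) g := by
    intro m
    induction m using Nat.strong_induction_on with
    | _ m ih =>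
      intro g hg
      cases hc : C.gate g with
      | input p f =>
        have h1 : (symC K idem C).gate (some (σ, g)) = .input ((σ : Perm P) p) f := by
          change lift K σ (C.gate g) = _
          rw [hc]
          rfl
        rw [val_of_input _ h1, val_of_input _ hc]
        rfl
      | inner op ch =>
        have h1 : (symC K idem C).gate (some (σ, g)) =
            .inner op (ch.map fun h => some (σ, h)) := by
          change lift K σ (C.gate g) = _
          rw [hc]
          rfl
        rw [val_of_inner _ h1, val_of_inner _ hc, Multiset.map_map]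
        congr 1
        refine Multiset.map_congr rfl fun x hx => ?_
        exact ih (C.rk x) (hg ▸ C.acyclic g op ch hc x hx) x rfl
  exact key _ g rfl

/-- The permutation of the gates. -/
def tau (G : Type) (σ : K) : Perm (Option (K × G)) :=
  Equiv.optionCongr ((Equiv.mulLeft σ).prodCongr (Equiv.refl G))

theorem tau_some (G : Type) (σ σ' : K) (g : G) : tau K G σ (some (σ', g)) = some (σ * σ', g) :=
  rfl

theorem isAut (idem : Multiset V → V) (C : Circuit P A V) (σ : K) :
    (symC K idem C).IsAut (σ : Perm P) (tau K C.G σ) := by
  refine ⟨rfl, ?_⟩
  rintro (_ | ⟨σ', g⟩)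
  · change Gate.inner idem ((Finset.univ : Finset K).val.map fun σ => some (σ, C.out)) =
      Gate.inner idem (((Finset.univ : Finset K).val.map fun σ => some (σ, C.out)).map
        (tau K C.G σ))
    congr 1
    rw [Multiset.map_map]
    have h1 : (Finset.univ : Finset K).val.map (Equiv.mulLeft σ) = (Finset.univ : Finset K).val :=
      Multiset.map_univ_val_equiv _
    conv_lhs => rw [← h1, Multiset.map_map]
    rfl
  · change lift K (σ * σ') (C.gate g) = (lift K σ' (C.gate g)).relabel (σ : Perm P) (tau K C.G σ)
    cases C.gate g with
    | input p f => rfl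
    | inner op ch =>
      change Gate.inner op (ch.map fun h => some (σ * σ', h)) =
        Gate.inner op ((ch.map fun h => some (σ', h)).map (tau K C.G σ))
      rw [Multiset.map_map]
      rfl

end SymAux

open SymAux in
theorem stSym : StSym := by
  intro P A V K _ B idem C hidem hid hOver hinv
  letI : Fintype K := Fintype.ofFinite K
  refine ⟨symC K idem C, ?_, ?_, ?_, ?_⟩
  · rintro (_ | ⟨σ, g⟩) op ch h
    · change Gate.inner idem _ = _ at h
      injection h with h1 h2
      rw [← h1]
      exact hidem
    · change lift K σ (C.gate g) = _ at h
      cases hg : C.gate g with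
      | input p f => rw [hg] at h; cases h
      | inner op' ch' =>
        rw [hg] at h
        injection h with h1 h2
        rw [← h1]
        exact hOver g op' ch' hg
  · intro σ hσ
    exact ⟨tau K C.G ⟨σ, hσ⟩, isAut K idem C ⟨σ, hσ⟩⟩
  · intro hfin
    have e : (symC K idem C).G = Option (K × C.G) := rfl
    rw [e]
    refine ⟨inferInstance, ?_⟩
    rw [Finite.card_option, Nat.card_prod]
  · intro a
    have h1 : (symC K idem C).gate (symC K idem C).out =
        .inner idem ((Finset.univ : Finset K).val.map fun σ => some (σ, C.out)) := rfl
    rw [val_of_inner _ h1, Multiset.map_map]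
    refine hid _ _ ?_ ?_
    · intro h0
      have h2 : (1 : K) ∈ (Finset.univ : Finset K).val := Finset.mem_univ _
      have h3 := Multiset.mem_map_of_mem ((symC K idem C).val a ∘ fun σ => some (σ, C.out)) h2
      rw [h0] at h3
      exact absurd h3 (Multiset.notMem_zero _)
    · intro u hu
      obtain ⟨σ, _, rfl⟩ := Multiset.mem_map.1 hu
      change (symC K idem C).val a (some (σ, C.out)) = _
      rw [val_some]
      exact hinv σ σ.2 a

end Pool.Agent.Lib.SymCirc
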